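import Pool.Agent.Lib.OrlovCurves.Defs
import Pool.Agent.Lib.MP_5c0b30_ag.DefsConv

/-!
# Isomorphisms modulo an ideal `I` of `C`, from isomorphisms of the orbit category

* `isom_of_onesided`: if for all `n ≠ 0` the component of degree `n` of an isomorphism of the orbit
  category or the component of degree `-n` of its inverse belongs to `I`, then the objects are
  isomorphic modulo `I`.
* `isom_of_neg`: if the components of negative degree of an isomorphism of the orbit category and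
  of its inverse belong to `I`, then the objects are isomorphic modulo `I`.
* `neg_of_lefschetz`: this is the case if `N` satisfies the hard Lefschetz theorem modulo `I` and
  there are no morphisms of the wrong weight. If `f` of degree `n < 0` commutes with `N` modulo
  `I`, and `[Λ, [N, f]] ≡ c f` with `c ≤ 0`, then `[N, [Λ, f]] ≡ (c + 2 n) f`, so that `[Λ, f]`
  satisfies the same hypothesis; after finitely many steps the degree is too small.
* `isom_through`: from `I` to the ideal of morphisms through the class `𝒜`.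
-/

set_option autoImplicit false

open CategoryTheory CategoryTheory.Limits

namespace Pool.Agent.Lib.OrlovCurves

open Pool.Agent.Lib.MP_5c0b30_ag

universe v u

section Homogeneous

variable {C : Type u} [Category.{v} C] [Preadditive C] [HasShift C ℤ]

lemma TwistIdeal.comp_mem_left (I : TwistIdeal C) {X Y Z : C} {a b c : ℤ} (f : X ⟶ Y⟦a⟧)
    (g : Y ⟶ Z⟦b⟧) (h : b + a = c) (hf : f ∈ I.mem X (Y⟦a⟧)) :
    ShiftedHom.comp f g h ∈ I.mem X (Z⟦c⟧) :=
  I.mem_comp _ _ hf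

lemma TwistIdeal.comp_mem_right (I : TwistIdeal C) {X Y Z : C} {a b c : ℤ} (f : X ⟶ Y⟦a⟧)
    (g : Y ⟶ Z⟦b⟧) (h : b + a = c) (hg : g ∈ I.mem Y (Z⟦b⟧)) :
    ShiftedHom.comp f g h ∈ I.mem X (Z⟦c⟧) :=
  I.comp_mem _ _ (I.mem_comp _ _ (I.map_mem _ _ hg))

/-- `I` is stable under division by nonzero integers. -/
lemma TwistIdeal.mem_of_zsmul_mem [Linear ℚ C] (I : TwistIdeal C) {X Y : C} (c : ℤ) (hc : c ≠ 0)
    (f : X ⟶ Y) (h : c • f ∈ I.mem X Y) : f ∈ I.mem X Y := by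
  have h1 : ((c : ℚ)⁻¹ • (c • f)) = f := by
    rw [← Int.cast_smul_eq_zsmul ℚ c f, smul_smul, inv_mul_cancel₀ (by exact_mod_cast hc), one_smul]
  have h2 : ((c : ℚ)⁻¹ • (c • f)) = (c • f) ≫ ((c : ℚ)⁻¹ • 𝟙 Y) := by
    rw [Linear.comp_smul, Category.comp_id]
  rw [← h1, h2]
  exact I.mem_comp _ _ h

end Homogeneous

variable {C : Type u} [Category.{v} C] [Preadditive C] [HasShift C ℤ]
  [∀ n : ℤ, (shiftFunctor C n).Additive]

/-- All the components of the morphism `φ` of the orbit category belong to `I`. -/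
def TwistIdeal.InOrb (I : TwistIdeal C) {X Y : C} (φ : OrbitHom X Y) : Prop :=
  ∀ n : ℤ, φ n ∈ I.mem X (Y⟦n⟧)

namespace TwistIdeal

variable (I : TwistIdeal C) {X Y Z : C}

omit [∀ n : ℤ, (shiftFunctor C n).Additive] in
lemma inOrb_zero : I.InOrb (0 : OrbitHom X Y) := fun n => (I.mem X (Y⟦n⟧)).zero_mem

omit [∀ n : ℤ, (shiftFunctor C n).Additive] in
lemma InOrb.add {φ ψ : OrbitHom X Y} (h : I.InOrb φ) (h' : I.InOrb ψ) : I.InOrb (φ + ψ) :=
  fun n => (I.mem X (Y⟦n⟧)).add_mem (h n) (h' n)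

omit [∀ n : ℤ, (shiftFunctor C n).Additive] in
lemma InOrb.neg {φ : OrbitHom X Y} (h : I.InOrb φ) : I.InOrb (-φ) :=
  fun n => (I.mem X (Y⟦n⟧)).neg_mem (h n)

omit [∀ n : ℤ, (shiftFunctor C n).Additive] in
lemma InOrb.sub {φ ψ : OrbitHom X Y} (h : I.InOrb φ) (h' : I.InOrb ψ) : I.InOrb (φ - ψ) := by
  rw [sub_eq_add_neg]
  exact InOrb.add I h (InOrb.neg I h')

omit [∀ n : ℤ, (shiftFunctor C n).Additive] in
lemma inOrb_hof (n : ℤ) (f : X ⟶ Y⟦n⟧) (hf : f ∈ I.mem X (Y⟦n⟧)) : I.InOrb (hof n f) := by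
  classical
  intro m
  by_cases h : m = n
  · subst h
    have : (hof m f : OrbitHom X Y) m = f := DirectSum.of_eq_same _ _
    rw [this]
    exact hf
  · have : (hof n f : OrbitHom X Y) m = 0 := DirectSum.of_eq_of_ne _ _ _ h
    rw [this]
    exact (I.mem X (Y⟦m⟧)).zero_mem

omit [∀ n : ℤ, (shiftFunctor C n).Additive] in
lemma mem_of_inOrb_hof (n : ℤ) (f : X ⟶ Y⟦n⟧) (h : I.InOrb (hof n f)) : f ∈ I.mem X (Y⟦n⟧) := by
  have h1 := h n
  have : (hof n f : OrbitHom X Y) n = f := DirectSum.of_eq_same _ _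
  rwa [this] at h1

lemma InOrb.comp_left (φ : OrbitHom X Y) {ψ : OrbitHom Y Z} (h : I.InOrb ψ) :
    I.InOrb (orbitComp φ ψ) := by
  classical
  intro n
  rw [orbitComp_apply φ ψ n (DFinsupp.support φ) (fun m hm => DFinsupp.notMem_support_iff.1 hm)]
  exact AddSubgroup.sum_mem _ (fun a _ => I.comp_mem_right _ _ _ (h _))

lemma InOrb.comp_right {φ : OrbitHom X Y} (h : I.InOrb φ) (ψ : OrbitHom Y Z) :
    I.InOrb (orbitComp φ ψ) := by
  classical
  intro n
  rw [orbitComp_apply φ ψ n (DFinsupp.support φ) (fun m hm => DFinsupp.notMem_support_iff.1 hm)]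
  exact AddSubgroup.sum_mem _ (fun a _ => I.comp_mem_left _ _ _ (h _))

end TwistIdeal

lemma orbitComp_sub' {X Y Z : C} (f : OrbitHom X Y) (g₁ g₂ : OrbitHom Y Z) :
    orbitComp f (g₁ - g₂) = orbitComp f g₁ - orbitComp f g₂ := by
  simp [orbitComp]

lemma sub_orbitComp' {X Y Z : C} (f₁ f₂ : OrbitHom X Y) (g : OrbitHom Y Z) :
    orbitComp (f₁ - f₂) g = orbitComp f₁ g - orbitComp f₂ g := by
  simp [orbitComp]

lemma orbitComp_zsmul' {X Y Z : C} (c : ℤ) (f : OrbitHom X Y) (g : OrbitHom Y Z) :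
    orbitComp f (c • g) = c • orbitComp f g := by
  simp [orbitComp]

lemma zsmul_orbitComp' {X Y Z : C} (c : ℤ) (f : OrbitHom X Y) (g : OrbitHom Y Z) :
    orbitComp (c • f) g = c • orbitComp f g := by
  simp [orbitComp]

/-- The component of degree `0` of a product, if the products of the components of the other degrees
have a factor in `I`. -/
lemma TwistIdeal.comp_zero_part (I : TwistIdeal C) {X Y Z : C} (φ : OrbitHom X Y)
    (ψ : OrbitHom Y Z) (h : ∀ n ≠ 0, φ n ∈ I.mem X (Y⟦n⟧) ∨ ψ (-n) ∈ I.mem Y (Z⟦-n⟧)) :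
    (orbitComp φ ψ) 0 - ShiftedHom.comp (φ 0) (ψ 0) (add_zero 0) ∈ I.mem X (Z⟦(0 : ℤ)⟧) := by
  classical
  have h1 := orbitComp_apply φ ψ 0 (insert 0 (DFinsupp.support φ)) (fun m hm =>
    DFinsupp.notMem_support_iff.1 (fun h => hm (Finset.mem_insert_of_mem h)))
  have h2 : ∀ (m : ℤ) (h : m + 0 = 0),
      ShiftedHom.comp (φ 0) (ψ m) h = ShiftedHom.comp (φ 0) (ψ 0) (add_zero 0) := by
    intro m h
    obtain rfl : m = 0 := by omega
    rfl
  rw [← Finset.add_sum_erase _ _ (Finset.mem_insert_self 0 _), h2] at h1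
  rw [h1, add_sub_cancel_left]
  refine AddSubgroup.sum_mem _ (fun a ha => ?_)
  rcases h a (Finset.ne_of_mem_erase ha) with h | h
  · exact I.comp_mem_left _ _ _ h
  · refine I.comp_mem_right _ _ _ ?_
    rw [zero_sub]
    exact h

/-- If for every `n ≠ 0` the component of degree `n` of an isomorphism of the orbit category or the
component of degree `-n` of its inverse belongs to `I`, then the objects are isomorphic modulo
`I`. -/
theorem isom_of_onesided (I : TwistIdeal C) {M M' : C} (e : OrbitEquiv M M')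
    (h : ∀ n ≠ 0, e.hom n ∈ I.mem M (M'⟦n⟧) ∨ e.inv (-n) ∈ I.mem M' (M⟦-n⟧)) :
    I.Isom M M' := by
  have key : ∀ {X Y : C} (φ : OrbitHom X Y) (ψ : OrbitHom Y X), orbitComp φ ψ = orbitId X →
      (∀ n ≠ 0, φ n ∈ I.mem X (Y⟦n⟧) ∨ ψ (-n) ∈ I.mem Y (X⟦-n⟧)) →
      (ShiftedHom.homEquiv (0 : ℤ) rfl).symm (φ 0) ≫ (ShiftedHom.homEquiv (0 : ℤ) rfl).symm (ψ 0)
        - 𝟙 X ∈ I.mem X X := by
    intro X Y φ ψ h hφ
    have h1 := I.comp_zero_part φ ψ hφ
    obtain ⟨f, hf⟩ := (ShiftedHom.homEquiv (X := X) (Y := Y) (0 : ℤ) rfl).surjective (φ 0)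
    obtain ⟨g, hg⟩ := (ShiftedHom.homEquiv (X := Y) (Y := X) (0 : ℤ) rfl).surjective (ψ 0)
    rw [← hf, ← hg, Equiv.symm_apply_apply, Equiv.symm_apply_apply]
    rw [← hf, ← hg, h] at h1
    have h2 : (orbitId X) 0 = ShiftedHom.mk₀ (0 : ℤ) rfl (𝟙 X) := DirectSum.of_eq_same _ _
    have h3 : (ShiftedHom.homEquiv (0 : ℤ) rfl f) = ShiftedHom.mk₀ (0 : ℤ) rfl f := rfl
    have h4 : (ShiftedHom.homEquiv (0 : ℤ) rfl g) = ShiftedHom.mk₀ (0 : ℤ) rfl g := rfl
    rw [h2, h3, h4, ShiftedHom.mk₀_comp_mk₀] at h1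
    have h5 : ∀ (k : X ⟶ X), (ShiftedHom.mk₀ (0 : ℤ) rfl k) =
        k ≫ (shiftFunctorZero C ℤ).inv.app X := by
      intro k
      simp [ShiftedHom.mk₀, shiftFunctorZero']
    rw [h5, h5, ← Preadditive.sub_comp] at h1
    have h6 : ((𝟙 X - f ≫ g) ≫ (shiftFunctorZero C ℤ).inv.app X) ≫
        (shiftFunctorZero C ℤ).hom.app X = 𝟙 X - f ≫ g := by simp
    rw [← neg_sub, ← h6]
    exact AddSubgroup.neg_mem _ (I.mem_comp _ ((shiftFunctorZero C ℤ).hom.app X) h1)
  refine ⟨_, _, key e.toOrbitIso.hom e.toOrbitIso.inv e.toOrbitIso.hom_inv_id ?_,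
    key e.toOrbitIso.inv e.toOrbitIso.hom e.toOrbitIso.inv_hom_id ?_⟩
  · intro n hn
    rw [OrbitEquiv.toOrbitIso_hom, OrbitEquiv.toOrbitIso_inv]
    exact h n hn
  · intro n hn
    rw [OrbitEquiv.toOrbitIso_hom, OrbitEquiv.toOrbitIso_inv]
    have h1 := h (-n) (by simpa using hn)
    rw [neg_neg] at h1
    exact h1.symm

/-- If the components of negative degree of an isomorphism of the orbit category and of its inverse
belong to `I`, then the objects are isomorphic modulo `I`. -/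
theorem isom_of_neg (I : TwistIdeal C) {M M' : C} (e : OrbitEquiv M M') (h : NegativeIn I e) :
    I.Isom M M' := by
  refine isom_of_onesided I e (fun n hn => ?_)
  rcases lt_or_gt_of_ne hn with h1 | h1
  · exact Or.inl (h n h1).1
  · exact Or.inr (h (-n) (by omega)).2

section Commutators

variable (I : TwistIdeal C) {M M' : C}

/-- The commutator of `N`, `N'` with a morphism of the orbit category. -/
noncomputable def brk (N : OrbitHom M M) (N' : OrbitHom M' M') (φ : OrbitHom M M') :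
    OrbitHom M M' := orbitComp φ N' - orbitComp N φ

lemma brk_sub (N : OrbitHom M M) (N' : OrbitHom M' M') (φ ψ : OrbitHom M M') :
    brk N N' (φ - ψ) = brk N N' φ - brk N N' ψ := by
  rw [brk, brk, brk, sub_orbitComp', orbitComp_sub']
  abel

lemma brk_zsmul (N : OrbitHom M M) (N' : OrbitHom M' M') (c : ℤ) (φ : OrbitHom M M') :
    brk N N' (c • φ) = c • brk N N' φ := by
  rw [brk, brk, orbitComp_zsmul', zsmul_orbitComp', smul_sub]

lemma TwistIdeal.InOrb.brk (N : OrbitHom M M) (N' : OrbitHom M' M') {φ : OrbitHom M M'}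
    (h : I.InOrb φ) : I.InOrb (brk N N' φ) :=
  TwistIdeal.InOrb.sub I (TwistIdeal.InOrb.comp_right I h N') (TwistIdeal.InOrb.comp_left I N h)

/-- The commutation rule of `brk N N'` and `brk Λ Λ'`. -/
lemma brk_brk (N Λ H : OrbitHom M M) (N' Λ' H' : OrbitHom M' M')
    (h : I.InOrb (orbitComp Λ N - orbitComp N Λ - H))
    (h' : I.InOrb (orbitComp Λ' N' - orbitComp N' Λ' - H')) (φ : OrbitHom M M') :
    I.InOrb (brk N N' (brk Λ Λ' φ) - brk Λ Λ' (brk N N' φ) - brk H H' φ) := by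
  have h1 : brk N N' (brk Λ Λ' φ) - brk Λ Λ' (brk N N' φ) - brk H H' φ =
      orbitComp φ (orbitComp Λ' N' - orbitComp N' Λ' - H') -
        orbitComp (orbitComp Λ N - orbitComp N Λ - H) φ := by
    simp only [brk, orbitComp_sub', sub_orbitComp', orbitComp_assoc]
    abel
  rw [h1]
  exact TwistIdeal.InOrb.sub I (TwistIdeal.InOrb.comp_left I φ h')
    (TwistIdeal.InOrb.comp_right I h φ)

end Commutators

section Lef

variable (I : TwistIdeal C) {M M' : C}

/-- the relation of a triple in the orbit category -/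
lemma Triple.orb (t : Triple I M) :
    I.InOrb (orbitComp (hof (-1) t.Λ) (hof 1 t.N) - orbitComp (hof 1 t.N) (hof (-1) t.Λ) -
      deg0 t.h) := by
  rw [orbitComp_hof' _ _ (add_neg_cancel 1), orbitComp_hof' _ _ (neg_add_cancel 1), deg0,
    ← map_sub, ← map_sub]
  exact I.inOrb_hof 0 _ t.rel

lemma IsPure.orb {h : M ⟶ M} {h' : M' ⟶ M'} (hp : IsPure I h h') (n : ℤ) (f : M ⟶ M'⟦n⟧) :
    I.InOrb (brk (deg0 h) (deg0 h') (hof n f) - (2 * n) • hof n f) := by
  rw [brk, deg0_hof, hof_deg0, ← map_sub, ← map_zsmul, ← map_sub]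
  exact I.inOrb_hof n _ (hp.weight n f)

/-- **Vanishing modulo `I`** of the morphisms of negative degree that commute with `N`. -/
lemma lefschetz_vanish [Linear ℚ C] (t : Triple I M) (t' : Triple I M')
    (hw : ∀ (n : ℤ) (f : M ⟶ M'⟦n⟧),
      f ≫ t'.h⟦n⟧' - t.h ≫ f - (2 * n) • f ∈ I.mem M (M'⟦n⟧))
    (b : ℤ) (hb : ∀ n < b, ∀ f : M ⟶ M'⟦n⟧, f ∈ I.mem M (M'⟦n⟧)) (k : ℕ) :
    ∀ (n c : ℤ), n < 0 → c ≤ 0 → n < b + k → ∀ f : M ⟶ M'⟦n⟧,
      I.InOrb (brk (hof (-1) t.Λ) (hof (-1) t'.Λ) (brk (hof 1 t.N) (hof 1 t'.N) (hof n f)) -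
        c • hof n f) → f ∈ I.mem M (M'⟦n⟧) := by
  induction k with
  | zero =>
    intro n c _ _ hn f _
    exact hb n (by simpa using hn) f
  | succ k ih =>
    intro n c hn hc hnb f hf
    have hw' : I.InOrb (brk (deg0 t.h) (deg0 t'.h) (hof n f) - (2 * n) • hof n f) := by
      rw [brk, deg0_hof, hof_deg0, ← map_sub, ← map_zsmul, ← map_sub]
      exact I.inOrb_hof n _ (hw n f)
    have hbb := brk_brk I _ _ _ _ _ _ (Triple.orb I t) (Triple.orb I t') (hof n f)
    -- `[N, [Λ, f]] ≡ (c + 2 n) f`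
    have h1 : I.InOrb (brk (hof 1 t.N) (hof 1 t'.N)
        (brk (hof (-1) t.Λ) (hof (-1) t'.Λ) (hof n f)) - (c + 2 * n) • hof n f) := by
      have h2 := TwistIdeal.InOrb.add I (TwistIdeal.InOrb.add I hbb hw') hf
      have h3 : ∀ (x y z w : OrbitHom M M'), x - y - z + (z - (2 * n) • w) + (y - c • w) =
          x - (c + 2 * n) • w := by
        intro x y z w
        rw [add_smul]
        abel
      rw [h3] at h2
      exact h2
    -- `g = [Λ, f]`
    have hg : brk (hof (-1) t.Λ) (hof (-1) t'.Λ) (hof n f) =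
        hof (n - 1) (ShiftedHom.comp f t'.Λ (by omega) - ShiftedHom.comp t.Λ f (by omega)) := by
      rw [brk, orbitComp_hof' f t'.Λ (c := n - 1) (by omega),
        orbitComp_hof' t.Λ f (c := n - 1) (by omega), ← map_sub]
    have hgI : (ShiftedHom.comp f t'.Λ (by omega) - ShiftedHom.comp t.Λ f (by omega) :
        M ⟶ M'⟦n - 1⟧) ∈ I.mem M (M'⟦n - 1⟧) := by
      refine ih (n - 1) (c + 2 * n) (by omega) (by omega) (by push_cast at hnb; omega) _ ?_
      rw [← hg, ← brk_zsmul, ← brk_sub]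
      exact TwistIdeal.InOrb.brk I _ _ h1
    have h4 : I.InOrb (brk (hof 1 t.N) (hof 1 t'.N)
        (brk (hof (-1) t.Λ) (hof (-1) t'.Λ) (hof n f))) := by
      rw [hg]
      exact TwistIdeal.InOrb.brk I _ _ (I.inOrb_hof _ _ hgI)
    have h5 : I.InOrb ((c + 2 * n) • hof n f : OrbitHom M M') := by
      have h6 := TwistIdeal.InOrb.sub I h4 h1
      rwa [sub_sub_cancel] at h6
    rw [← map_zsmul] at h5
    exact I.mem_of_zsmul_mem _ (by omega) f (I.mem_of_inOrb_hof n _ h5)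

omit I in
lemma orbitComp_hof_apply {X Y Z : C} (φ : OrbitHom X Y) (b : ℤ) (g : Y ⟶ Z⟦b⟧) (n c : ℤ)
    (h : b + n = c) : (orbitComp φ (hof b g)) c = ShiftedHom.comp (φ n) g h := by
  classical
  induction φ using DirectSum.induction_on with
  | zero => simp
  | add φ ψ h₁ h₂ =>
    rw [add_orbitComp, DirectSum.add_apply, h₁, h₂, DirectSum.add_apply, ShiftedHom.add_comp]
  | of a f =>
    change (orbitComp (hof a f) (hof b g)) c = ShiftedHom.comp ((hof a f : OrbitHom X Y) n) g h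
    by_cases ha : a = n
    · subst ha
      rw [orbitComp_hof' f g h, DirectSum.of_eq_same, DirectSum.of_eq_same]
    · rw [orbitComp_hof, DirectSum.of_eq_of_ne _ _ _ (by omega),
        DirectSum.of_eq_of_ne _ _ _ (Ne.symm ha), ShiftedHom.zero_comp]

omit I in
lemma hof_orbitComp_apply {X Y Z : C} (a : ℤ) (f : X ⟶ Y⟦a⟧) (ψ : OrbitHom Y Z) (n c : ℤ)
    (h : n + a = c) : (orbitComp (hof a f) ψ) c = ShiftedHom.comp f (ψ n) h := by
  classical
  induction ψ using DirectSum.induction_on with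
  | zero => simp
  | add φ ψ h₁ h₂ =>
    rw [orbitComp_add, DirectSum.add_apply, h₁, h₂, DirectSum.add_apply, ShiftedHom.comp_add]
  | of b g =>
    change (orbitComp (hof a f) (hof b g)) c = ShiftedHom.comp f ((hof b g : OrbitHom Y Z) n) h
    by_cases hb : b = n
    · subst hb
      rw [orbitComp_hof' f g h, DirectSum.of_eq_same, DirectSum.of_eq_same]
    · rw [orbitComp_hof, DirectSum.of_eq_of_ne _ _ _ (by omega),
        DirectSum.of_eq_of_ne _ _ _ (Ne.symm hb), ShiftedHom.comp_zero]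

/-- vanishing for `f` with `f N' ≡ N f` -/
lemma lefschetz_vanish' [Linear ℚ C] (t : Triple I M) (t' : Triple I M')
    (hp : IsPure I t.h t'.h) (n : ℤ) (hn : n < 0) (f : M ⟶ M'⟦n⟧)
    (hf : ShiftedHom.comp f t'.N (add_comm 1 n) - ShiftedHom.comp t.N f rfl ∈
      I.mem M (M'⟦n + 1⟧)) : f ∈ I.mem M (M'⟦n⟧) := by
  obtain ⟨b, hb⟩ := hp.bounded
  refine lefschetz_vanish I t t' hp.weight b hb (n - b + 1).toNat n 0 hn le_rfl (by omega) f ?_
  rw [zero_smul, sub_zero]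
  refine TwistIdeal.InOrb.brk I _ _ ?_
  rw [brk, orbitComp_hof' f t'.N (add_comm 1 n), orbitComp_hof' t.N f (rfl : n + 1 = n + 1),
    ← map_sub]
  exact I.inOrb_hof _ _ hf

/-- **The Lefschetz criterion**: the components of negative degree belong to `I`. -/
theorem neg_of_lefschetz [Linear ℚ C] (e : OrbitEquiv M M') (h : Lefschetz I e) :
    NegativeIn I e := by
  obtain ⟨t, t', hp, hp', hc⟩ := h
  have hE : I.InOrb (brk (hof 1 t.N) (hof 1 t'.N) e.toOrbitIso.hom) := by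
    intro m
    obtain ⟨n, rfl⟩ : ∃ n, m = n + 1 := ⟨m - 1, by omega⟩
    have h1 : (brk (hof 1 t.N) (hof 1 t'.N) e.toOrbitIso.hom : OrbitHom M M') (n + 1) =
        ShiftedHom.comp (e.hom n) t'.N (add_comm 1 n) - ShiftedHom.comp t.N (e.hom n) rfl := by
      rw [brk, ← OrbitEquiv.toOrbitIso_hom]
      change (orbitComp e.toOrbitIso.hom (hof 1 t'.N)) (n + 1) -
        (orbitComp (hof 1 t.N) e.toOrbitIso.hom) (n + 1) = _
      rw [orbitComp_hof_apply _ _ _ n _ (add_comm 1 n), hof_orbitComp_apply _ _ _ n _ rfl]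
    rw [h1]
    exact hc n
  have hF : I.InOrb (brk (hof 1 t'.N) (hof 1 t.N) e.toOrbitIso.inv) := by
    have h1 := TwistIdeal.InOrb.neg I (TwistIdeal.InOrb.comp_left I e.toOrbitIso.inv
      (TwistIdeal.InOrb.comp_right I hE e.toOrbitIso.inv))
    have h2 : -orbitComp e.toOrbitIso.inv (orbitComp (brk (hof 1 t.N) (hof 1 t'.N)
        e.toOrbitIso.hom) e.toOrbitIso.inv) = brk (hof 1 t'.N) (hof 1 t.N) e.toOrbitIso.inv := by
      rw [brk, brk, sub_orbitComp', orbitComp_sub', orbitComp_assoc, orbitComp_assoc,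
        e.toOrbitIso.hom_inv_id, orbitComp_id, ← orbitComp_assoc _ e.toOrbitIso.hom,
        e.toOrbitIso.inv_hom_id, orbitId_comp, neg_sub]
    rwa [h2] at h1
  intro n hn
  refine ⟨lefschetz_vanish' I t t' hp n hn _ (hc n), lefschetz_vanish' I t' t hp' n hn _ ?_⟩
  have h1 := hF (n + 1)
  have h2 : (brk (hof 1 t'.N) (hof 1 t.N) e.toOrbitIso.inv : OrbitHom M' M) (n + 1) =
      ShiftedHom.comp (e.inv n) t.N (add_comm 1 n) - ShiftedHom.comp t'.N (e.inv n) rfl := by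
    rw [brk, ← OrbitEquiv.toOrbitIso_inv]
    change (orbitComp e.toOrbitIso.inv (hof 1 t.N)) (n + 1) -
      (orbitComp (hof 1 t'.N) e.toOrbitIso.inv) (n + 1) = _
    rw [orbitComp_hof_apply _ _ _ n _ (add_comm 1 n), hof_orbitComp_apply _ _ _ n _ rfl]
  rwa [h2] at h1

end Lef

section Through

omit [HasShift C ℤ] [∀ n : ℤ, (shiftFunctor C n).Additive] in
lemma comp_mem_through (𝒜 : C → Prop) {X Y Z : C} (f : X ⟶ Y) {g : Y ⟶ Z}
    (hg : g ∈ through 𝒜 Y Z) : f ≫ g ∈ through 𝒜 X Z := by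
  refine AddSubgroup.closure_induction (p := fun g _ => f ≫ g ∈ through 𝒜 X Z)
    ?_ ?_ ?_ ?_ hg
  · rintro _ ⟨A, a, b, hA, rfl⟩
    exact AddSubgroup.subset_closure ⟨A, f ≫ a, b, hA, Category.assoc _ _ _⟩
  · rw [Limits.comp_zero]
    exact AddSubgroup.zero_mem _
  · intro x y _ _ hx hy
    rw [Preadditive.comp_add]
    exact AddSubgroup.add_mem _ hx hy
  · intro x _ hx
    rw [Preadditive.comp_neg]
    exact AddSubgroup.neg_mem _ hx

omit [HasShift C ℤ] [∀ n : ℤ, (shiftFunctor C n).Additive] in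
lemma mem_through_comp (𝒜 : C → Prop) {X Y Z : C} {f : X ⟶ Y} (g : Y ⟶ Z)
    (hf : f ∈ through 𝒜 X Y) : f ≫ g ∈ through 𝒜 X Z := by
  refine AddSubgroup.closure_induction (p := fun f _ => f ≫ g ∈ through 𝒜 X Z)
    ?_ ?_ ?_ ?_ hf
  · rintro _ ⟨A, a, b, hA, rfl⟩
    exact AddSubgroup.subset_closure ⟨A, a, b ≫ g, hA, (Category.assoc _ _ _).symm⟩
  · rw [Limits.zero_comp]
    exact AddSubgroup.zero_mem _
  · intro x y _ _ hx hy
    rw [Preadditive.add_comp]
    exact AddSubgroup.add_mem _ hx hy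
  · intro x _ hx
    rw [Preadditive.neg_comp]
    exact AddSubgroup.neg_mem _ hx

omit [∀ n : ℤ, (shiftFunctor C n).Additive] in
/-- From `I` to the ideal of the morphisms through the class `𝒜`. -/
theorem isom_through (𝒜 : C → Prop) (I : TwistIdeal C) {M M' : C} (hM : I.Small 𝒜 M)
    (hM' : I.Small 𝒜 M') (h : I.Isom M M') :
    ∃ (f : M ⟶ M') (g : M' ⟶ M), f ≫ g - 𝟙 M ∈ through 𝒜 M M ∧
      g ≫ f - 𝟙 M' ∈ through 𝒜 M' M' := by
  obtain ⟨f, g, h1, h2⟩ := h
  obtain ⟨y, hy1, hy2⟩ := hM _ ((I.mem M M).neg_mem h1)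
  obtain ⟨z, hz1, hz2⟩ := hM' _ ((I.mem M' M').neg_mem h2)
  rw [neg_sub, sub_sub_cancel] at hy1 hy2 hz1 hz2
  -- `f ≫ (g ≫ y) ≡ 1`, `(z ≫ g) ≫ f ≡ 1`
  refine ⟨f, g ≫ y, by rwa [← Category.assoc], ?_⟩
  have h3 : (z ≫ g) ≫ (f ≫ g ≫ y - 𝟙 M) ∈ through 𝒜 M' M :=
    comp_mem_through 𝒜 _ (by rwa [← Category.assoc])
  have h4 : (z ≫ (g ≫ f) - 𝟙 M') ≫ (g ≫ y) ∈ through 𝒜 M' M := mem_through_comp 𝒜 _ hz2
  -- `g ≫ y ≡ z ≫ g`
  have h5 : z ≫ g - g ≫ y ∈ through 𝒜 M' M := by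
    have h6 : z ≫ g - g ≫ y = (z ≫ (g ≫ f) - 𝟙 M') ≫ (g ≫ y) -
        (z ≫ g) ≫ (f ≫ g ≫ y - 𝟙 M) := by
      simp only [Preadditive.sub_comp, Preadditive.comp_sub, Category.assoc, Category.id_comp,
        Category.comp_id]
      abel
    rw [h6]
    exact AddSubgroup.sub_mem _ h4 h3
  have h7 : (g ≫ y) ≫ f - 𝟙 M' = (z ≫ (g ≫ f) - 𝟙 M') - (z ≫ g - g ≫ y) ≫ f := by
    simp only [Preadditive.sub_comp, Category.assoc]
    abel
  rw [h7]
  exact AddSubgroup.sub_mem _ hz2 (mem_through_comp 𝒜 f h5)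

end Through

end Pool.Agent.Lib.OrlovCurves
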