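import Pool.Agent.Lib.OrlovCurves.Count
import Mathlib.CategoryTheory.Adjunction.Basic
import Mathlib.CategoryTheory.Limits.Preserves.Shapes.Zero

/-!
# The two criteria for `M ≅ M'`
-/

set_option autoImplicit false

open CategoryTheory CategoryTheory.Limits

namespace Pool.Agent.Lib.OrlovCurves

open Pool.Agent.Lib.MP_5c0b30_ag

universe v u v' u'

variable {C : Type u} [Category.{v} C] [Preadditive C]

/-- multiplicities and duality -/
lemma summand_dual (Θ : Cᵒᵖ ≌ C) (A X : C) (n : ℕ) :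
    IsSummand (fun _ : Fin n => A) X ↔
      IsSummand (fun _ : Fin n => Θ.functor.obj (Opposite.op A))
        (Θ.functor.obj (Opposite.op X)) := by
  constructor
  · rintro ⟨i, r, h1, h2⟩
    refine ⟨fun k => Θ.functor.map (r k).op, fun k => Θ.functor.map (i k).op, fun k => ?_,
      fun k l hkl => ?_⟩
    · rw [← Functor.map_comp, ← op_comp, h1, op_id]
      exact Θ.functor.map_id _
    · rw [← Functor.map_comp, ← op_comp, h2 l k (Ne.symm hkl), op_zero, Functor.map_zero]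
  · rintro ⟨i, r, h1, h2⟩
    refine ⟨fun k => (Θ.functor.preimage (r k)).unop, fun k => (Θ.functor.preimage (i k)).unop,
      fun k => ?_, fun k l hkl => ?_⟩
    · rw [← unop_comp]
      apply Quiver.Hom.op_inj
      apply Θ.functor.map_injective
      rw [Quiver.Hom.op_unop, Functor.map_comp, Functor.map_preimage, Functor.map_preimage, h1,
        op_id]
      exact (Θ.functor.map_id _).symm
    · rw [← unop_comp]
      apply Quiver.Hom.op_inj
      apply Θ.functor.map_injective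
      rw [Quiver.Hom.op_unop, Functor.map_comp, Functor.map_preimage, Functor.map_preimage,
        h2 l k (Ne.symm hkl), op_zero, Functor.map_zero]

/-- multiplicities of dual objects in a self-dual object -/
lemma summand_selfdual (Θ : Cᵒᵖ ≌ C) {A A' X : C}
    (hX : Nonempty (Θ.functor.obj (Opposite.op X) ≅ X))
    (hA : Nonempty (A' ≅ Θ.functor.obj (Opposite.op A))) (n : ℕ) :
    IsSummand (fun _ : Fin n => A) X ↔ IsSummand (fun _ : Fin n => A') X := by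
  obtain ⟨e⟩ := hX
  obtain ⟨a⟩ := hA
  rw [summand_dual Θ A X n]
  constructor
  · intro h
    exact (h.trans e.hom e.inv e.hom_inv_id).congr (fun _ => a.symm)
  · intro h
    exact (h.trans e.inv e.hom e.inv_hom_id).congr (fun _ => a)

/-- elementary: a family of integers with sum `0` whose values are `0` or the value at `n` -/
lemma all_zero (d : ℤ → ℤ) (n : ℤ) (h : ∀ i, d i = 0 ∨ d i = d n) (T : Finset ℤ) (hn : n ∈ T)
    (hT : ∑ i ∈ T, d i = 0) (i : ℤ) : d i = 0 := by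
  have h1 : d n = 0 := by
    rcases le_total 0 (d n) with h2 | h2
    · refine (Finset.sum_eq_zero_iff_of_nonneg (fun j _ => ?_)).1 hT n hn
      rcases h j with h3 | h3 <;> omega
    · refine (Finset.sum_eq_zero_iff_of_nonpos (fun j _ => ?_)).1 hT n hn
      rcases h j with h3 | h3 <;> omega
  rcases h i with h2 | h2
  · exact h2
  · rw [h2, h1]

section

variable [HasShift C ℤ] [∀ n : ℤ, (shiftFunctor C n).Additive] {𝒜 : C → Prop}

omit [∀ n : ℤ, (shiftFunctor C n).Additive] in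
lemma IsPieces.inj (h𝒜 : IsPieces 𝒜) {A : C} (hA : 𝒜 A) {b c : ℤ} (h : Nonempty (A⟦b⟧ ≅ A⟦c⟧)) :
    b = c := by
  by_contra hbc
  obtain ⟨e⟩ := h
  exact (h𝒜.free _ (h𝒜.shift A hA b) (c - b) (by omega)).false
    (e ≪≫ (shiftFunctorAdd' C b (c - b) c (by omega)).app A)

omit [∀ n : ℤ, (shiftFunctor C n).Additive] in
lemma IsPieces.finite (h𝒜 : IsPieces 𝒜) {A : C} (hA : 𝒜 A) {μ : Type} [Finite μ] (B : μ → C) :
    {b : ℤ | ∃ k, Nonempty (A⟦b⟧ ≅ B k)}.Finite := by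
  have h1 : {b : ℤ | ∃ k, Nonempty (A⟦b⟧ ≅ B k)} = ⋃ k, {b : ℤ | Nonempty (A⟦b⟧ ≅ B k)} := by
    ext b
    simp
  rw [h1]
  refine Set.finite_iUnion (fun k => Set.Subsingleton.finite ?_)
  rintro b ⟨e⟩ c ⟨e'⟩
  exact h𝒜.inj hA ⟨e ≪≫ e'.symm⟩

omit [∀ n : ℤ, (shiftFunctor C n).Additive] in
lemma IsPieces.card_sum (h𝒜 : IsPieces 𝒜) {A : C} (hA : 𝒜 A) {μ : Type} [Fintype μ] (B : μ → C)
    (T : Finset ℤ) (hT : ∀ b k, Nonempty (A⟦b⟧ ≅ B k) → b ∈ T) :
    Nat.card {k // ∃ b : ℤ, Nonempty (B k ≅ A⟦b⟧)} =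
      ∑ b ∈ T, Nat.card {k // Nonempty (A⟦b⟧ ≅ B k)} := by
  classical
  have h1 : (Finset.univ.filter (fun k => ∃ b : ℤ, Nonempty (B k ≅ A⟦b⟧))) =
      T.biUnion (fun b => Finset.univ.filter (fun k => Nonempty (A⟦b⟧ ≅ B k))) := by
    ext k
    simp only [Finset.mem_filter, Finset.mem_univ, true_and, Finset.mem_biUnion]
    constructor
    · rintro ⟨b, ⟨e⟩⟩
      exact ⟨b, hT b k ⟨e.symm⟩, ⟨e.symm⟩⟩
    · rintro ⟨b, _, ⟨e⟩⟩
      exact ⟨b, ⟨e.symm⟩⟩
  have h2 : Nat.card {k // ∃ b : ℤ, Nonempty (B k ≅ A⟦b⟧)} =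
      (Finset.univ.filter (fun k => ∃ b : ℤ, Nonempty (B k ≅ A⟦b⟧))).card := by
    rw [Nat.card_eq_fintype_card, Fintype.card_subtype]
  rw [h2, h1, Finset.card_biUnion]
  · refine Finset.sum_congr rfl (fun b _ => ?_)
    rw [Nat.card_eq_fintype_card, Fintype.card_subtype]
  · intro b _ c _ hbc
    rw [Function.onFun, Finset.disjoint_left]
    intro k hk hk'
    simp only [Finset.mem_filter, Finset.mem_univ, true_and] at hk hk'
    obtain ⟨e⟩ := hk
    obtain ⟨e'⟩ := hk'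
    exact hbc (h𝒜.inj hA ⟨e ≪≫ e'.symm⟩)

/-- The multiplicities in `B` and in `B'` are equal: orbit category and duality. -/
theorem card_eq_of_known (h𝒜 : IsPieces 𝒜) {M M' M₁ : C} (e : OrbitEquiv M M') {μ μ' : Type}
    [Fintype μ] [Fintype μ'] {B : μ → C} {B' : μ' → C} (hB : ∀ k, 𝒜 (B k)) (hB' : ∀ k, 𝒜 (B' k))
    (d : Dec M M₁ B) (d' : Dec M' M₁ B') (h : KnownUpToDuality 𝒜 M M') {A : C} (hA : 𝒜 A) :
    Nat.card {k // Nonempty (A ≅ B k)} = Nat.card {k // Nonempty (A ≅ B' k)} := by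
  obtain ⟨Θ, hM, hM', hb, hk⟩ := h
  obtain ⟨n, hn⟩ := hk A hA
  have hbd : ∀ i : ℤ, ∃ N : ℕ, ∀ m, IsSummand (fun _ : Fin m => A⟦i⟧) M → m ≤ N := by
    intro i
    obtain ⟨N, hN⟩ := hb _ hA
    exact ⟨N, fun m hm => hN m (fun _ => i) hm⟩
  have hl : ∀ i : ℤ, Loc (A⟦i⟧) := fun i => h𝒜.loc (h𝒜.shift A hA i)
  have hBl : ∀ k, Loc (B k) := fun k => h𝒜.loc (hB k)
  have hBl' : ∀ k, Loc (B' k) := fun k => h𝒜.loc (hB' k)
  let c : ℤ → ℤ := fun i => (Nat.card {k // Nonempty (A⟦i⟧ ≅ B k)} : ℤ) -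
    (Nat.card {k // Nonempty (A⟦i⟧ ≅ B' k)} : ℤ)
  have hc : ∀ i, c i = 0 ∨ c i = c n := by
    intro i
    rcases hn i with h1 | rfl | h1
    · left
      obtain ⟨N, hN⟩ := hbd i
      have h2 := card_eq_of_sameMult (hl i) hBl hBl' d d' hN h1
      simp only [c]
      omega
    · right
      rfl
    · right
      obtain ⟨N, hN⟩ := hbd n
      obtain ⟨N', hN'⟩ := hbd i
      have h2 := card_add_eq (hl n) (hl i) hBl hBl' d d' hN hN'
        (fun m => summand_selfdual Θ hM h1 m) (fun m => summand_selfdual Θ hM' h1 m)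
      simp only [c]
      omega
  let T : Finset ℤ := (h𝒜.finite hA B).toFinset ∪ (h𝒜.finite hA B').toFinset ∪ {n}
  have hT : ∑ i ∈ T, c i = 0 := by
    have h1 := h𝒜.card_sum hA B T (fun b k hbk => by
      simp only [T, Finset.mem_union, Set.Finite.mem_toFinset, Set.mem_ofPred_eq]
      exact Or.inl (Or.inl ⟨k, hbk⟩))
    have h2 := h𝒜.card_sum hA B' T (fun b k hbk => by
      simp only [T, Finset.mem_union, Set.Finite.mem_toFinset, Set.mem_ofPred_eq]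
      exact Or.inl (Or.inr ⟨k, hbk⟩))
    have h3 := card_orb h𝒜 hA e hB hB' d d' (hb A hA)
    rw [h1, h2] at h3
    simp only [c]
    rw [Finset.sum_sub_distrib, ← Nat.cast_sum, ← Nat.cast_sum, h3, sub_self]
  have h0 := all_zero c n hc T (by simp [T]) hT 0
  have h1 : ∀ {ν : Type} (E : ν → C), Nat.card {k // Nonempty (A⟦(0 : ℤ)⟧ ≅ E k)} =
      Nat.card {k // Nonempty (A ≅ E k)} := by
    intro ν E
    refine Nat.card_congr (Equiv.subtypeEquivRight (fun k => ?_))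
    exact ⟨fun ⟨a⟩ => ⟨(z0 A).symm ≪≫ a⟩, fun ⟨a⟩ => ⟨z0 A ≪≫ a⟩⟩
  simp only [c, h1] at h0
  omega

end

/-- multiplicities with respect to arbitrary objects -/
lemma card_eq_all {𝒜 : C → Prop} {μ μ' : Type} {B : μ → C} {B' : μ' → C}
    (hB : ∀ k, 𝒜 (B k)) (hB' : ∀ k, 𝒜 (B' k))
    (h : ∀ A, 𝒜 A → Nat.card {k // Nonempty (A ≅ B k)} = Nat.card {k // Nonempty (A ≅ B' k)})
    (A : C) : Nat.card {k // Nonempty (A ≅ B k)} = Nat.card {k // Nonempty (A ≅ B' k)} := by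
  have key : ∀ {X : C}, 𝒜 X → Nonempty (A ≅ X) →
      Nat.card {k // Nonempty (A ≅ B k)} = Nat.card {k // Nonempty (A ≅ B' k)} := by
    rintro X hX ⟨a⟩
    have h1 : ∀ {ν : Type} (E : ν → C), Nat.card {k // Nonempty (A ≅ E k)} =
        Nat.card {k // Nonempty (X ≅ E k)} := by
      intro ν E
      refine Nat.card_congr (Equiv.subtypeEquivRight (fun k => ?_))
      exact ⟨fun ⟨b⟩ => ⟨a.symm ≪≫ b⟩, fun ⟨b⟩ => ⟨a ≪≫ b⟩⟩
    rw [h1, h1]
    exact h X hX
  by_cases h1 : ∃ k, Nonempty (A ≅ B k)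
  · obtain ⟨k, hk⟩ := h1
    exact key (hB k) hk
  · by_cases h2 : ∃ k, Nonempty (A ≅ B' k)
    · obtain ⟨k, hk⟩ := h2
      exact key (hB' k) hk
    · have e1 : IsEmpty {k // Nonempty (A ≅ B k)} := ⟨fun k => h1 ⟨k.1, k.2⟩⟩
      have e2 : IsEmpty {k // Nonempty (A ≅ B' k)} := ⟨fun k => h2 ⟨k.1, k.2⟩⟩
      rw [Nat.card_of_isEmpty, Nat.card_of_isEmpty]

/-- an additive functor and a binary biproduct -/
noncomputable def mapBiprodIso [HasBinaryBiproducts C] {V : Type u'} [Category.{v'} V]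
    [Preadditive V] [HasBinaryBiproducts V] (H : C ⥤ V) [H.Additive] (X Y : C) :
    H.obj (X ⊞ Y) ≅ H.obj X ⊞ H.obj Y where
  hom := biprod.lift (H.map biprod.fst) (H.map biprod.snd)
  inv := biprod.desc (H.map biprod.inl) (H.map biprod.inr)
  hom_inv_id := by
    rw [biprod.lift_desc, ← H.map_comp, ← H.map_comp, ← H.map_add, biprod.total, H.map_id]
  inv_hom_id := by
    refine biprod.hom_ext' _ _ ?_ ?_
    · refine biprod.hom_ext _ _ ?_ ?_
      · simp [← H.map_comp]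
      · simp [← H.map_comp]
    · refine biprod.hom_ext _ _ ?_ ?_
      · simp [← H.map_comp]
      · simp [← H.map_comp]

/-- a biproduct indexed by a finite type as one indexed by `Fin n` -/
lemma biproduct_fin [HasFiniteBiproducts C] {μ : Type} [Fintype μ] (B : μ → C) :
    Nonempty (⨁ (fun k : Fin (Fintype.card μ) => B ((Fintype.equivFin μ).symm k)) ≅ ⨁ B) :=
  ⟨biproduct.whiskerEquiv (Fintype.equivFin μ).symm (fun _ => Iso.refl _)⟩

/-- The realization criterion. -/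
theorem iso_of_realization [HasFiniteBiproducts C] [HasBinaryBiproducts C] {𝒜 : C → Prop}
    {M M' M₁ : C} {μ μ' : Type} [Fintype μ] [Fintype μ'] {B : μ → C} {B' : μ' → C}
    (hB : ∀ k, 𝒜 (B k)) (hB' : ∀ k, 𝒜 (B' k)) (d : Dec M M₁ B) (d' : Dec M' M₁ B')
    {V : Type u'} [Category.{v'} V] [Preadditive V] [HasBinaryBiproducts V] (H : C ⥤ V)
    [H.Additive] (hV : Cancels V) (hH : Detects H 𝒜) (h : Nonempty (H.obj M ≅ H.obj M')) :
    Nonempty (M ≅ M') := by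
  obtain ⟨e⟩ := h
  obtain ⟨a⟩ := biproduct_fin B
  obtain ⟨a'⟩ := biproduct_fin B'
  have h1 : Nonempty (H.obj M₁ ⊞ H.obj (⨁ B) ≅ H.obj M₁ ⊞ H.obj (⨁ B')) :=
    ⟨(mapBiprodIso H M₁ (⨁ B)).symm ≪≫ H.mapIso d.toIso.symm ≪≫ e ≪≫ H.mapIso d'.toIso ≪≫
      mapBiprodIso H M₁ (⨁ B')⟩
  obtain ⟨b⟩ := hV _ _ _ h1
  obtain ⟨c⟩ := hH _ _ _ _ (fun k => hB _) (fun k => hB' _)
    ⟨H.mapIso a ≪≫ b ≪≫ H.mapIso a'.symm⟩
  exact d.iso_of_iso d' ⟨a.symm ≪≫ c ≪≫ a'⟩

end Pool.Agent.Lib.OrlovCurves
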