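import Pool.Agent.Lib.OrlovCurves.DecL
import Mathlib.CategoryTheory.Limits.Shapes.Biproducts

/-!
# Parallel decompositions of two objects isomorphic modulo `𝒜`
-/

set_option autoImplicit false

open CategoryTheory CategoryTheory.Limits ZeroObject

namespace Pool.Agent.Lib.OrlovCurves

universe v u

variable {C : Type u} [Category.{v} C] [Preadditive C] {𝒜 : C → Prop}

/-- `X = X₀ ⊕ N` and `N = N₀ ⊕ ⨁ B` with `N₀ = 0` give `X = X₀ ⊕ ⨁ B` -/
def Dec.ofCompl {X X₀ N N₀ : C} {μ : Type} [Fintype μ] {B : μ → C} (d : Dec N N₀ B)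
    (hN₀ : 𝟙 N₀ = 0) (i0 : X₀ ⟶ X) (r0 : X ⟶ X₀) (i : N ⟶ X) (r : X ⟶ N) (h0 : i0 ≫ r0 = 𝟙 X₀)
    (h1 : i ≫ r = 𝟙 N) (h2 : i0 ≫ r = 0) (h3 : i ≫ r0 = 0) (h4 : r0 ≫ i0 + r ≫ i = 𝟙 X) :
    Dec X X₀ B where
  i0 := i0
  r0 := r0
  i k := d.i k ≫ i
  r k := r ≫ d.r k
  h0 := h0
  diag k := by rw [Category.assoc, ← Category.assoc i, h1, Category.id_comp, d.diag]
  off k l hkl := by rw [Category.assoc, ← Category.assoc i, h1, Category.id_comp, d.off k l hkl]
  off0 k := by rw [← Category.assoc, h2, zero_comp]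
  off1 k := by rw [Category.assoc, h3, comp_zero]
  total := by
    have h5 : d.r0 ≫ d.i0 = 0 := by
      rw [← Category.id_comp d.i0, hN₀, zero_comp, comp_zero]
    have h6 := d.total
    rw [h5, zero_add] at h6
    have h7 : ∑ k, (r ≫ d.r k) ≫ d.i k ≫ i = r ≫ i := by
      calc ∑ k, (r ≫ d.r k) ≫ d.i k ≫ i = r ≫ (∑ k, d.r k ≫ d.i k) ≫ i := by
            simp only [Preadditive.sum_comp, Preadditive.comp_sum, Category.assoc]
        _ = r ≫ i := by rw [h6, Category.id_comp]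
    rw [h7, h4]

/-- A pair of parallel decompositions. -/
theorem exists_pair [IsIdempotentComplete C] [HasZeroObject C] (hloc : ∀ A, 𝒜 A → Loc A)
    {M M' : C} (f : M ⟶ M') (g : M' ⟶ M) (h1 : f ≫ g - 𝟙 M ∈ through 𝒜 M M)
    (h2 : g ≫ f - 𝟙 M' ∈ through 𝒜 M' M') :
    ∃ (μ μ' : Type) (_ : Fintype μ) (_ : Fintype μ') (B : μ → C) (B' : μ' → C) (M₁ : C),
      (∀ k, 𝒜 (B k)) ∧ (∀ k, 𝒜 (B' k)) ∧ Nonempty (Dec M M₁ B) ∧ Nonempty (Dec M' M₁ B') := by
  have h3 := AddSubgroup.neg_mem _ h1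
  rw [neg_sub] at h3
  obtain ⟨κ, _, A, a, b, hA, hab⟩ := through_sum h3
  obtain ⟨μ, _, B, M₁, d, f₁, g₁, hB, hfg, hgf⟩ := decomposition hloc κ f g A a b hA
    (by rw [hab]; abel) h2
  -- the complement of `M₁` in `M'`
  have hp : (g₁ ≫ f₁) ≫ (g₁ ≫ f₁) = g₁ ≫ f₁ := by
    rw [Category.assoc, ← Category.assoc f₁, hfg, Category.id_comp]
  have hq : (𝟙 M' - g₁ ≫ f₁) ≫ (𝟙 M' - g₁ ≫ f₁) = 𝟙 M' - g₁ ≫ f₁ := by
    simp only [Preadditive.sub_comp, Preadditive.comp_sub, Category.id_comp, Category.comp_id, hp]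
    abel
  obtain ⟨N, i, e, hie, hei⟩ := IsIdempotentComplete.idempotents_split M' _ hq
  have h4 : 𝟙 M' - g₁ ≫ f₁ ∈ through 𝒜 M' M' := by
    have h5 := AddSubgroup.neg_mem _ hgf
    rwa [neg_sub] at h5
  have h5 : 𝟙 N ∈ through 𝒜 N N := by
    have h6 : i ≫ (𝟙 M' - g₁ ≫ f₁) ≫ e = 𝟙 N := by
      rw [← hei, Category.assoc, ← Category.assoc i e, hie, Category.id_comp]
    rw [← h6]
    exact through_comp _ _ (comp_through _ _ h4)
  obtain ⟨κ', _, A', a', b', hA', hab'⟩ := through_sum h5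
  obtain ⟨μ', _, B', N₁, d', f₂, g₂, hB', hfg', -⟩ := decomposition (M' := (0 : C)) hloc κ'
    (0 : N ⟶ 0) 0 A' a' b' hA' (by rw [hab', zero_comp, zero_add])
    (by
      have h6 : (0 : (0 : C) ⟶ N) ≫ (0 : N ⟶ 0) - 𝟙 (0 : C) = 0 := by
        rw [zero_comp, zero_sub, neg_eq_zero]
        exact HasZeroObject.from_zero_ext _ _
      rw [h6]
      exact AddSubgroup.zero_mem _)
  have h6 : 𝟙 N₁ = 0 := by
    rw [← hfg', HasZeroObject.to_zero_ext f₂ 0, zero_comp]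
  have h7 : f₁ ≫ e = 0 := by
    have h8 : f₁ ≫ (𝟙 M' - g₁ ≫ f₁) ≫ e = 0 := by
      rw [Preadditive.sub_comp, Preadditive.comp_sub, Category.id_comp, Category.assoc,
        ← Category.assoc f₁, hfg, Category.id_comp, sub_self]
    rw [← hei, Category.assoc, hie, Category.comp_id] at h8
    exact h8
  have h8 : i ≫ g₁ = 0 := by
    have h9 : i ≫ (𝟙 M' - g₁ ≫ f₁) ≫ g₁ = 0 := by
      rw [Preadditive.sub_comp, Preadditive.comp_sub, Category.id_comp, Category.assoc, hfg,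
        Category.comp_id, sub_self]
    rw [← hei, Category.assoc, ← Category.assoc i e, hie, Category.id_comp] at h9
    exact h9
  refine ⟨μ, μ', inferInstance, inferInstance, B, B', M₁, hB, hB', ⟨d⟩,
    ⟨Dec.ofCompl d' h6 f₁ g₁ i e hfg hie h7 h8 ?_⟩⟩
  rw [hei]
  abel

variable [HasFiniteBiproducts C] [HasBinaryBiproducts C]

/-- a decomposition as an isomorphism -/
noncomputable def Dec.toIso {X X₀ : C} {μ : Type} [Fintype μ] {B : μ → C} (d : Dec X X₀ B) :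
    X ≅ X₀ ⊞ (⨁ B) where
  hom := biprod.lift d.r0 (biproduct.lift d.r)
  inv := biprod.desc d.i0 (biproduct.desc d.i)
  hom_inv_id := by
    rw [biprod.lift_desc, biproduct.lift_desc]
    exact d.total
  inv_hom_id := by
    refine biprod.hom_ext' _ _ ?_ ?_
    · refine biprod.hom_ext _ _ ?_ ?_
      · simp [d.h0]
      · refine biproduct.hom_ext _ _ (fun k => ?_)
        simp [d.off0]
    · refine biproduct.hom_ext' _ _ (fun k => ?_)
      refine biprod.hom_ext _ _ ?_ ?_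
      · simp [d.off1]
      · refine biproduct.hom_ext _ _ (fun l => ?_)
        by_cases hkl : k = l
        · subst hkl
          simp [d.diag]
        · simp [d.off k l hkl, biproduct.ι_π_ne B hkl]

/-- if the rests are isomorphic, so are the objects -/
lemma Dec.iso_of_iso {M M' M₁ : C} {μ μ' : Type} [Fintype μ] [Fintype μ'] {B : μ → C}
    {B' : μ' → C} (d : Dec M M₁ B) (d' : Dec M' M₁ B') (h : Nonempty (⨁ B ≅ ⨁ B')) :
    Nonempty (M ≅ M') := by
  obtain ⟨e⟩ := h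
  exact ⟨d.toIso ≪≫ biprod.mapIso (Iso.refl _) e ≪≫ d'.toIso.symm⟩

omit [HasBinaryBiproducts C] in
/-- Families with the same multiplicities are isomorphic. -/
lemma iso_of_card {μ μ' : Type} [Fintype μ] [Fintype μ'] (B : μ → C) (B' : μ' → C)
    (h : ∀ A : C, Nat.card {k // Nonempty (A ≅ B k)} = Nat.card {k // Nonempty (A ≅ B' k)}) :
    Nonempty (⨁ B ≅ ⨁ B') := by
  classical
  let Q := Quotient (isIsomorphicSetoid C)
  let cl : C → Q := fun X => Quotient.mk (isIsomorphicSetoid C) X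
  have hcl : ∀ X Y : C, cl X = cl Y ↔ Nonempty (X ≅ Y) := fun X Y => Quotient.eq
  have h1 : ∀ q : Q, Nonempty ({k // cl (B k) = q} ≃ {k // cl (B' k) = q}) := by
    intro q
    obtain ⟨A, rfl⟩ := Quotient.exists_rep q
    have h2 : ∀ {ν : Type} (E : ν → C),
        Nonempty ({k // cl (E k) = cl A} ≃ {k // Nonempty (A ≅ E k)}) := by
      intro ν E
      refine ⟨Equiv.subtypeEquivRight (fun k => ?_)⟩
      rw [hcl]
      exact ⟨fun ⟨e⟩ => ⟨e.symm⟩, fun ⟨e⟩ => ⟨e.symm⟩⟩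
    obtain ⟨e1⟩ := h2 B
    obtain ⟨e2⟩ := h2 B'
    have h3 := h A
    rw [Nat.card_eq_fintype_card, Nat.card_eq_fintype_card] at h3
    exact ⟨e1.trans ((Fintype.equivOfCardEq h3).trans e2.symm)⟩
  let σ : μ ≃ μ' := (Equiv.sigmaFiberEquiv (fun k => cl (B k))).symm.trans
    ((Equiv.sigmaCongrRight (fun q => (h1 q).some)).trans
      (Equiv.sigmaFiberEquiv (fun k => cl (B' k))))
  have hσ : ∀ k, Nonempty (B k ≅ B' (σ k)) := by
    intro k
    rw [← hcl]
    exact (((h1 (cl (B k))).some ⟨k, rfl⟩).2).symm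
  exact ⟨biproduct.whiskerEquiv σ (fun k => (hσ k).some.symm)⟩

end Pool.Agent.Lib.OrlovCurves
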