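import Pool.Agent.Lib.OrlovCurves.Orb
import Pool.Agent.Lib.OrlovCurves.Pair

/-!
# Comparison of multiplicities
-/

set_option autoImplicit false

open CategoryTheory CategoryTheory.Limits

namespace Pool.Agent.Lib.OrlovCurves

open Pool.Agent.Lib.MP_5c0b30_ag

universe v u

variable {C : Type u} [Category.{v} C] [Preadditive C]

/-- a frame in `M` from a frame in `M₁` -/
theorem Dec.frame' {A M M₁ : C} (hA : Loc A) {κ μ : Type} [Fintype κ] [Fintype μ] {B : μ → C}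
    (hB : ∀ k, Loc (B k)) (d : Dec M M₁ B) (F : Frame hA.rad M₁ κ)
    [DecidablePred (· ∈ {k | Nonempty (A ≅ B k)})] :
    Nonempty (Frame hA.rad M (κ ⊕ {k | Nonempty (A ≅ B k)})) :=
  d.frame F {k | Nonempty (A ≅ B k)} (fun k => k.2.some)
    (fun k hk φ ψ h => hk (hA.iso_of_comp (hB k) φ ψ h))

/-- a bound for the multiplicity passes to summands -/
lemma Dec.bound {M M₁ : C} {μ : Type} [Fintype μ] {B : μ → C} (d : Dec M M₁ B) {κ : Type}
    {E : κ → C} (h : IsSummand E M₁) : IsSummand E M :=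
  h.trans d.i0 d.r0 d.h0

/-- In `𝒜`, the multiplicities in `B` and in `B'` are equal if those in `M` and `M'` are. -/
theorem card_eq_of_sameMult {A M M' M₁ : C} (hA : Loc A) {μ μ' : Type} [Fintype μ] [Fintype μ']
    {B : μ → C} {B' : μ' → C} (hB : ∀ k, Loc (B k)) (hB' : ∀ k, Loc (B' k)) (d : Dec M M₁ B)
    (d' : Dec M' M₁ B') {N : ℕ} (hN : ∀ n, IsSummand (fun _ : Fin n => A) M → n ≤ N)
    (h : SameMult A M M') :
    Nat.card {k // Nonempty (A ≅ B k)} = Nat.card {k // Nonempty (A ≅ B' k)} := by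
  classical
  obtain ⟨n, ⟨F⟩⟩ := exists_frame (X := M₁) hA (fun n hn => hN n (d.bound hn))
  obtain ⟨G⟩ := d.frame' hA hB F
  obtain ⟨G'⟩ := d'.frame' hA hB' F
  have h1 : ∀ m : ℕ, m ≤ Fintype.card (Fin n ⊕ {k | Nonempty (A ≅ B k)}) ↔
      m ≤ Fintype.card (Fin n ⊕ {k | Nonempty (A ≅ B' k)}) := fun m => by
    rw [← G.isSummand_iff, ← G'.isSummand_iff]
    exact h m
  have h2 := le_antisymm ((h1 _).1 le_rfl) ((h1 _).2 le_rfl)
  rw [Fintype.card_sum, Fintype.card_sum] at h2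
  rw [Nat.card_eq_fintype_card, Nat.card_eq_fintype_card]
  exact Nat.add_left_cancel h2

/-- The differences of the multiplicities of `A` and of `A'` are equal if the multiplicities of `A`
and of `A'` in `M` (and in `M'`) are equal. -/
theorem card_add_eq {A A' M M' M₁ : C} (hA : Loc A) (hA' : Loc A') {μ μ' : Type} [Fintype μ]
    [Fintype μ'] {B : μ → C} {B' : μ' → C} (hB : ∀ k, Loc (B k)) (hB' : ∀ k, Loc (B' k))
    (d : Dec M M₁ B) (d' : Dec M' M₁ B') {N N' : ℕ}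
    (hN : ∀ n, IsSummand (fun _ : Fin n => A) M → n ≤ N)
    (hN' : ∀ n, IsSummand (fun _ : Fin n => A') M → n ≤ N')
    (h : ∀ n, IsSummand (fun _ : Fin n => A) M ↔ IsSummand (fun _ : Fin n => A') M)
    (h' : ∀ n, IsSummand (fun _ : Fin n => A) M' ↔ IsSummand (fun _ : Fin n => A') M') :
    Nat.card {k // Nonempty (A ≅ B k)} + Nat.card {k // Nonempty (A' ≅ B' k)} =
      Nat.card {k // Nonempty (A ≅ B' k)} + Nat.card {k // Nonempty (A' ≅ B k)} := by
  classical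
  obtain ⟨n, ⟨F⟩⟩ := exists_frame (X := M₁) hA (fun n hn => hN n (d.bound hn))
  obtain ⟨n', ⟨F'⟩⟩ := exists_frame (X := M₁) hA' (fun n hn => hN' n (d.bound hn))
  obtain ⟨G⟩ := d.frame' hA hB F
  obtain ⟨G'⟩ := d'.frame' hA hB' F
  obtain ⟨K⟩ := d.frame' hA' hB F'
  obtain ⟨K'⟩ := d'.frame' hA' hB' F'
  have h1 : ∀ m : ℕ, m ≤ Fintype.card (Fin n ⊕ {k | Nonempty (A ≅ B k)}) ↔
      m ≤ Fintype.card (Fin n' ⊕ {k | Nonempty (A' ≅ B k)}) := fun m => by
    rw [← G.isSummand_iff, ← K.isSummand_iff]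
    exact h m
  have h2 : ∀ m : ℕ, m ≤ Fintype.card (Fin n ⊕ {k | Nonempty (A ≅ B' k)}) ↔
      m ≤ Fintype.card (Fin n' ⊕ {k | Nonempty (A' ≅ B' k)}) := fun m => by
    rw [← G'.isSummand_iff, ← K'.isSummand_iff]
    exact h' m
  have h3 := le_antisymm ((h1 _).1 le_rfl) ((h1 _).2 le_rfl)
  have h4 := le_antisymm ((h2 _).1 le_rfl) ((h2 _).2 le_rfl)
  rw [Fintype.card_sum, Fintype.card_sum] at h3 h4
  have e1 : Nat.card {k // Nonempty (A ≅ B k)} = Fintype.card {k | Nonempty (A ≅ B k)} :=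
    Nat.card_eq_fintype_card
  have e2 : Nat.card {k // Nonempty (A ≅ B' k)} = Fintype.card {k | Nonempty (A ≅ B' k)} :=
    Nat.card_eq_fintype_card
  have e3 : Nat.card {k // Nonempty (A' ≅ B k)} = Fintype.card {k | Nonempty (A' ≅ B k)} :=
    Nat.card_eq_fintype_card
  have e4 : Nat.card {k // Nonempty (A' ≅ B' k)} = Fintype.card {k | Nonempty (A' ≅ B' k)} :=
    Nat.card_eq_fintype_card
  omega

variable [HasShift C ℤ] [∀ n : ℤ, (shiftFunctor C n).Additive]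

/-- a decomposition in the orbit category -/
noncomputable def Dec.toOrb {M M₁ : C} {μ : Type} [Fintype μ] {B : μ → C} (d : Dec M M₁ B) :
    Dec (D := Orbit C) (toOrbit M) (toOrbit M₁) (fun k => toOrbit (B k)) where
  i0 := deg0 d.i0
  r0 := deg0 d.r0
  i k := deg0 (d.i k)
  r k := deg0 (d.r k)
  h0 := by
    change orbitComp (deg0 d.i0) (deg0 d.r0) = orbitId M₁
    rw [← deg0_comp, d.h0, deg0_id]
  diag k := by
    change orbitComp (deg0 (d.i k)) (deg0 (d.r k)) = orbitId (B k)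
    rw [← deg0_comp, d.diag, deg0_id]
  off k l hkl := by
    change orbitComp (deg0 (d.i k)) (deg0 (d.r l)) = 0
    rw [← deg0_comp, d.off k l hkl, deg0_zero]
  off0 k := by
    change orbitComp (deg0 d.i0) (deg0 (d.r k)) = 0
    rw [← deg0_comp, d.off0, deg0_zero]
  off1 k := by
    change orbitComp (deg0 (d.i k)) (deg0 d.r0) = 0
    rw [← deg0_comp, d.off1, deg0_zero]
  total := by
    have h1 : orbitComp (deg0 d.r0) (deg0 d.i0) + ∑ k, orbitComp (deg0 (d.r k)) (deg0 (d.i k)) =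
        orbitId M := by
      simp only [← deg0_comp]
      rw [← deg0_sum, ← deg0_add, d.total, deg0_id]
    exact h1

variable {𝒜 : C → Prop}

/-- In the orbit category: the number of twists of `A` is the same in `B` and in `B'`. -/
theorem card_orb (h𝒜 : IsPieces 𝒜) {A M M' M₁ : C} (hA : 𝒜 A) (e : OrbitEquiv M M') {μ μ' : Type}
    [Fintype μ] [Fintype μ'] {B : μ → C} {B' : μ' → C} (hB : ∀ k, 𝒜 (B k)) (hB' : ∀ k, 𝒜 (B' k))
    (d : Dec M M₁ B) (d' : Dec M' M₁ B') (hb : BoundedMult A M) :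
    Nat.card {k // ∃ b : ℤ, Nonempty (B k ≅ A⟦b⟧)} =
      Nat.card {k // ∃ b : ℤ, Nonempty (B' k ≅ A⟦b⟧)} := by
  classical
  obtain ⟨N, hN⟩ := hb
  obtain ⟨n, ⟨F⟩⟩ := exists_orbFrame h𝒜 hA (X := M₁) (fun n s hn => hN n s (d.bound hn))
  have key : ∀ {ν : Type} [Fintype ν] {E : ν → C} (hE : ∀ k, 𝒜 (E k)) {X : C} (dd : Dec X M₁ E),
      Nonempty (Frame (D := Orbit C) (orbRad h𝒜 hA) (toOrbit X)
        (Fin n ⊕ {k | ∃ b : ℤ, Nonempty (E k ≅ A⟦b⟧)})) := by
    intro ν _ E hE X dd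
    refine dd.toOrb.frame F {k | ∃ b : ℤ, Nonempty (E k ≅ A⟦b⟧)} (fun k => ?_) ?_
    · exact ((OrbitIso.ofCIso k.2.choose_spec.some).trans
        (OrbitIso.shiftIso A k.2.choose)).toIso.symm
    · intro k hk φ ψ
      change ¬ IsIso ((orbitComp (show OrbitHom A (E k) from φ)
        (show OrbitHom (E k) A from ψ)) 0)
      refine orbitComp_not_iso (h𝒜.loc hA) _ _ (fun m h => hk ?_)
      obtain ⟨a⟩ := iso_of_term (h𝒜.loc hA) (h𝒜.loc (h𝒜.shift _ (hE k) m)) _ _ h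
      obtain ⟨c⟩ := isoBack (E k) m (-m) (add_neg_cancel m)
      exact ⟨-m, ⟨c.symm ≪≫ (shiftFunctor C (-m)).mapIso a.symm⟩⟩
  obtain ⟨G⟩ := key hB d
  obtain ⟨G'⟩ := key hB' d'
  have h1 := (G.trans e.toOrbitIso.toIso).card_eq _ G'
  rw [Fintype.card_sum, Fintype.card_sum] at h1
  rw [Nat.card_eq_fintype_card, Nat.card_eq_fintype_card]
  exact Nat.add_left_cancel h1

end Pool.Agent.Lib.OrlovCurves
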