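import Pool.Agent.Lib.OrlovCurves.Frame

/-!
# Decompositions `X = X₀ ⊕ ⨁ B` and multiplicities
-/

set_option autoImplicit false

open CategoryTheory

namespace Pool.Agent.Lib.OrlovCurves

universe v u

variable {D : Type u} [Category.{v} D] [Preadditive D]

/-- A decomposition of `X` into `X₀` and a finite family `B`. -/
structure Dec (X X₀ : D) {μ : Type} [Fintype μ] (B : μ → D) where
  i0 : X₀ ⟶ X
  r0 : X ⟶ X₀
  i : ∀ k, B k ⟶ X
  r : ∀ k, X ⟶ B k
  h0 : i0 ≫ r0 = 𝟙 X₀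
  diag : ∀ k, i k ≫ r k = 𝟙 (B k)
  off : ∀ k l, k ≠ l → i k ≫ r l = 0
  off0 : ∀ k, i0 ≫ r k = 0
  off1 : ∀ k, i k ≫ r0 = 0
  total : r0 ≫ i0 + ∑ k, r k ≫ i k = 𝟙 X

/-- multiplicities are additive -/
theorem Dec.frame {A X X₀ : D} {J : Rad A} {κ μ : Type} [Fintype κ] [Fintype μ] {B : μ → D}
    (d : Dec X X₀ B) (F : Frame J X₀ κ) (S : Set μ) [DecidablePred (· ∈ S)]
    (α : ∀ k : S, A ≅ B k.1)
    (hS : ∀ k, k ∉ S → ∀ (φ : A ⟶ B k) (ψ : B k ⟶ A), φ ≫ ψ ∈ J.J) :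
    Nonempty (Frame J X (κ ⊕ S)) := by
  classical
  let i : κ ⊕ S → (A ⟶ X) := Sum.elim (fun k => F.i k ≫ d.i0) (fun k => (α k).hom ≫ d.i k.1)
  let r : κ ⊕ S → (X ⟶ A) := Sum.elim (fun k => d.r0 ≫ F.r k) (fun k => d.r k.1 ≫ (α k).inv)
  have key : 𝟙 X - ∑ k, r k ≫ i k = d.r0 ≫ (𝟙 X₀ - ∑ k, F.r k ≫ F.i k) ≫ d.i0 +
      ∑ k : {k // k ∉ S}, d.r k.1 ≫ d.i k.1 := by
    have h1 : ∑ k, r k ≫ i k = d.r0 ≫ (∑ k, F.r k ≫ F.i k) ≫ d.i0 +
        ∑ k : S, d.r k.1 ≫ d.i k.1 := by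
      rw [Fintype.sum_sum_type]
      congr 1
      · simp only [r, i, Sum.elim_inl, Preadditive.sum_comp, Preadditive.comp_sum, Category.assoc]
      · refine Finset.sum_congr rfl (fun k _ => ?_)
        simp only [r, i, Sum.elim_inr, Category.assoc, Iso.inv_hom_id_assoc]
    have h2 : ∑ k, d.r k ≫ d.i k = (∑ k : S, d.r k.1 ≫ d.i k.1) +
        ∑ k : {k // k ∉ S}, d.r k.1 ≫ d.i k.1 :=
      (Fintype.sum_subtype_add_sum_subtype (· ∈ S) (fun k => d.r k ≫ d.i k)).symm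
    rw [h1, ← d.total, h2, Preadditive.sub_comp, Preadditive.comp_sub, Category.id_comp]
    abel
  refine ⟨{ i := i, r := r, diag := ?_, off := ?_, rest := ?_ }⟩
  · rintro (k | k)
    · simp only [i, r, Sum.elim_inl, Category.assoc]
      rw [← Category.assoc d.i0, d.h0, Category.id_comp, F.diag]
    · simp only [i, r, Sum.elim_inr, Category.assoc]
      rw [← Category.assoc (d.i k.1), d.diag, Category.id_comp, Iso.hom_inv_id]
  · rintro (k | k) (l | l) hkl
    · simp only [i, r, Sum.elim_inl, Category.assoc]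
      rw [← Category.assoc d.i0, d.h0, Category.id_comp, F.off]
      exact fun h => hkl (by rw [h])
    · simp only [i, r, Sum.elim_inl, Sum.elim_inr, Category.assoc]
      rw [← Category.assoc d.i0, d.off0, Limits.zero_comp, Limits.comp_zero]
    · simp only [i, r, Sum.elim_inl, Sum.elim_inr, Category.assoc]
      rw [← Category.assoc (d.i k.1), d.off1, Limits.zero_comp, Limits.comp_zero]
    · simp only [i, r, Sum.elim_inr, Category.assoc]
      rw [← Category.assoc (d.i k.1), d.off k.1 l.1, Limits.zero_comp, Limits.comp_zero]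
      intro h
      exact hkl (by rw [Subtype.ext h])
  · intro φ ψ
    change φ ≫ (𝟙 X - ∑ k, r k ≫ i k) ≫ ψ ∈ J.J
    rw [key, Preadditive.add_comp, Preadditive.comp_add]
    refine J.add _ _ ?_ ?_
    · have h := F.rest (φ ≫ d.r0) (d.i0 ≫ ψ)
      simp only [Category.assoc] at h ⊢
      exact h
    · rw [Preadditive.sum_comp, Preadditive.comp_sum]
      refine J.sum _ _ (fun k _ => ?_)
      have h := hS k.1 k.2 (φ ≫ d.r k.1) (d.i k.1 ≫ ψ)
      simp only [Category.assoc] at h ⊢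
      exact h

end Pool.Agent.Lib.OrlovCurves
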