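import Pool.Agent.Lib.OrlovCurves.Defs
import Pool.Agent.Lib.OrlovCurves.Dec
import Mathlib.Data.Fintype.Option
import Mathlib.Tactic.Abel

/-!
# The decomposition lemma

If `f ≫ g + ∑ a ≫ b = 1` where the `a`, `b` pass through local objects, then `M` is the direct sum
of a direct summand of `M'` and of finitely many of these local objects.
-/

set_option autoImplicit false

open CategoryTheory CategoryTheory.Limits

namespace Pool.Agent.Lib.OrlovCurves

universe v u

variable {C : Type u} [Category.{v} C] [Preadditive C] {𝒜 : C → Prop}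

lemma through_comp {X Y Z : C} (f : X ⟶ Y) (g : Y ⟶ Z) (hg : g ∈ through 𝒜 Y Z) :
    f ≫ g ∈ through 𝒜 X Z := by
  induction hg using AddSubgroup.closure_induction with
  | mem x hx =>
    obtain ⟨A, a, b, hA, rfl⟩ := hx
    exact AddSubgroup.subset_closure ⟨A, f ≫ a, b, hA, Category.assoc _ _ _⟩
  | zero =>
    rw [comp_zero]
    exact AddSubgroup.zero_mem _
  | add x y _ _ hx hy =>
    rw [Preadditive.comp_add]
    exact AddSubgroup.add_mem _ hx hy
  | neg x _ hx =>
    rw [Preadditive.comp_neg]
    exact AddSubgroup.neg_mem _ hx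

lemma comp_through {X Y Z : C} (f : X ⟶ Y) (g : Y ⟶ Z) (hf : f ∈ through 𝒜 X Y) :
    f ≫ g ∈ through 𝒜 X Z := by
  induction hf using AddSubgroup.closure_induction with
  | mem x hx =>
    obtain ⟨A, a, b, hA, rfl⟩ := hx
    exact AddSubgroup.subset_closure ⟨A, a, b ≫ g, hA, (Category.assoc _ _ _).symm⟩
  | zero =>
    rw [zero_comp]
    exact AddSubgroup.zero_mem _
  | add x y _ _ hx hy =>
    rw [Preadditive.add_comp]
    exact AddSubgroup.add_mem _ hx hy
  | neg x _ hx =>
    rw [Preadditive.neg_comp]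
    exact AddSubgroup.neg_mem _ hx

/-- the elements of `through` are finite sums -/
lemma through_sum {X Y : C} {t : X ⟶ Y} (ht : t ∈ through 𝒜 X Y) :
    ∃ (κ : Type) (_ : Fintype κ) (A : κ → C) (a : ∀ k, X ⟶ A k) (b : ∀ k, A k ⟶ Y),
      (∀ k, 𝒜 (A k)) ∧ ∑ k, a k ≫ b k = t := by
  induction ht using AddSubgroup.closure_induction with
  | mem x hx =>
    obtain ⟨A, a, b, hA, rfl⟩ := hx
    exact ⟨Unit, inferInstance, fun _ => A, fun _ => a, fun _ => b, fun _ => hA, by simp⟩
  | zero =>
    exact ⟨Empty, inferInstance, fun k => k.elim, fun k => k.elim, fun k => k.elim,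
      fun k => k.elim, by simp⟩
  | add x y _ _ hx hy =>
    obtain ⟨κ, _, A, a, b, hA, rfl⟩ := hx
    obtain ⟨μ, _, B, c, d, hB, rfl⟩ := hy
    refine ⟨κ ⊕ μ, inferInstance, Sum.elim A B, fun k => ?_, fun k => ?_, ?_, ?_⟩
    · rcases k with k | k
      · exact a k
      · exact c k
    · rcases k with k | k
      · exact b k
      · exact d k
    · rintro (k | k)
      · exact hA k
      · exact hB k
    · rw [Fintype.sum_sum_type]
      rfl
  | neg x _ hx =>
    obtain ⟨κ, _, A, a, b, hA, rfl⟩ := hx
    refine ⟨κ, inferInstance, A, fun k => -a k, b, hA, ?_⟩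
    simp

/-- `1 - a ≫ b` is invertible if `1 - b ≫ a` is. -/
lemma isIso_one_sub {A M : C} (a : M ⟶ A) (b : A ⟶ M) (h : IsIso (𝟙 A - b ≫ a)) :
    IsIso (𝟙 M - a ≫ b) := by
  have h1 : (𝟙 A - b ≫ a) ≫ inv (𝟙 A - b ≫ a) = 𝟙 A := IsIso.hom_inv_id _
  have h2 : inv (𝟙 A - b ≫ a) ≫ (𝟙 A - b ≫ a) = 𝟙 A := IsIso.inv_hom_id _
  rw [Preadditive.sub_comp, Category.id_comp, Category.assoc] at h1
  rw [Preadditive.comp_sub, Category.comp_id] at h2
  set w := inv (𝟙 A - b ≫ a) with hw
  have e1 : b ≫ a ≫ w = w - 𝟙 A := by rw [← h1]; abel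
  have e2 : w ≫ b ≫ a = w - 𝟙 A := by rw [← h2]; abel
  have e3 : b ≫ a ≫ w ≫ b = w ≫ b - b := by
    have h3 := congrArg (fun t => t ≫ b) e1
    simpa [Category.assoc, Preadditive.sub_comp] using h3
  have e4 : w ≫ b ≫ a ≫ b = w ≫ b - b := by
    have h3 := congrArg (fun t => t ≫ b) e2
    simpa [Category.assoc, Preadditive.sub_comp] using h3
  refine ⟨𝟙 M + a ≫ w ≫ b, ?_, ?_⟩
  · simp only [Preadditive.sub_comp, Preadditive.comp_add, Category.comp_id, Category.id_comp,
      Category.assoc]
    rw [e3, Preadditive.comp_sub]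
    abel
  · simp only [Preadditive.add_comp, Preadditive.comp_sub, Category.comp_id, Category.id_comp,
      Category.assoc]
    rw [e4, Preadditive.comp_sub]
    abel

/-- The data of the decomposition lemma. -/
def Good (𝒜 : C → Prop) (M M' : C) : Prop :=
  ∃ (μ : Type) (_ : Fintype μ) (B : μ → C) (M₁ : C) (_ : Dec M M₁ B) (f : M₁ ⟶ M') (g : M' ⟶ M₁),
    (∀ k, 𝒜 (B k)) ∧ f ≫ g = 𝟙 M₁ ∧ g ≫ f - 𝟙 M' ∈ through 𝒜 M' M'

/-- the step of the decomposition lemma: split off a local object -/
lemma good_split {M M₀ M' A : C} (hA : 𝒜 A) (i : M₀ ⟶ M) (e : M ⟶ M₀) (j : A ⟶ M) (q : M ⟶ A)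
    (h1 : i ≫ e = 𝟙 M₀) (h2 : j ≫ q = 𝟙 A) (h3 : e ≫ i + q ≫ j = 𝟙 M) (h : Good 𝒜 M₀ M') :
    Good 𝒜 M M' := by
  obtain ⟨μ, _, B, M₁, d, f, g, hB, hfg, hgf⟩ := h
  have h4 : i ≫ q = 0 := by
    have h5 : i ≫ (e ≫ i + q ≫ j) ≫ q = i ≫ q := by rw [h3, Category.id_comp]
    rw [Preadditive.add_comp, Preadditive.comp_add, Category.assoc, Category.assoc, h2,
      Category.comp_id, ← Category.assoc i e, h1, Category.id_comp] at h5
    simpa using h5
  have h5 : j ≫ e = 0 := by
    have h6 : j ≫ (e ≫ i + q ≫ j) ≫ e = j ≫ e := by rw [h3, Category.id_comp]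
    rw [Preadditive.add_comp, Preadditive.comp_add, Category.assoc, Category.assoc, h1,
      Category.comp_id, ← Category.assoc j q, h2, Category.id_comp] at h6
    simpa using h6
  refine ⟨Option μ, inferInstance, fun k => k.elim A B, M₁,
    { i0 := d.i0 ≫ i
      r0 := e ≫ d.r0
      i := fun k => match k with
        | none => j
        | some k => d.i k ≫ i
      r := fun k => match k with
        | none => q
        | some k => e ≫ d.r k
      h0 := ?_
      diag := ?_
      off := ?_
      off0 := ?_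
      off1 := ?_
      total := ?_ }, f, g, ?_, hfg, hgf⟩
  · rw [Category.assoc, ← Category.assoc i, h1, Category.id_comp, d.h0]
  · rintro (_ | k)
    · exact h2
    · change (d.i k ≫ i) ≫ e ≫ d.r k = _
      rw [Category.assoc, ← Category.assoc i, h1, Category.id_comp]
      exact d.diag k
  · rintro (_ | k) (_ | l) hkl
    · exact absurd rfl hkl
    · change j ≫ e ≫ d.r l = 0
      rw [← Category.assoc, h5, zero_comp]
    · change (d.i k ≫ i) ≫ q = 0
      rw [Category.assoc, h4, comp_zero]
    · change (d.i k ≫ i) ≫ e ≫ d.r l = 0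
      rw [Category.assoc, ← Category.assoc i, h1, Category.id_comp]
      exact d.off k l (fun h => hkl (by rw [h]))
  · rintro (_ | k)
    · change (d.i0 ≫ i) ≫ q = 0
      rw [Category.assoc, h4, comp_zero]
    · change (d.i0 ≫ i) ≫ e ≫ d.r k = 0
      rw [Category.assoc, ← Category.assoc i, h1, Category.id_comp]
      exact d.off0 k
  · rintro (_ | k)
    · change j ≫ e ≫ d.r0 = 0
      rw [← Category.assoc, h5, zero_comp]
    · change (d.i k ≫ i) ≫ e ≫ d.r0 = 0
      rw [Category.assoc, ← Category.assoc i, h1, Category.id_comp]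
      exact d.off1 k
  · rw [Fintype.sum_option]
    change (e ≫ d.r0) ≫ d.i0 ≫ i + (q ≫ j + ∑ k, (e ≫ d.r k) ≫ d.i k ≫ i) = 𝟙 M
    have h6 : e ≫ (d.r0 ≫ d.i0 + ∑ k, d.r k ≫ d.i k) ≫ i = e ≫ i := by
      rw [d.total, Category.id_comp]
    rw [Preadditive.add_comp, Preadditive.comp_add, Preadditive.sum_comp,
      Preadditive.comp_sum] at h6
    simp only [Category.assoc] at h6 ⊢
    rw [← h3, ← h6]
    abel
  · rintro (_ | k)
    · exact hA
    · exact hB k

/-- The statement of the decomposition lemma. -/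
def DecP (𝒜 : C → Prop) (M' : C) (κ : Type) [Fintype κ] : Prop :=
  ∀ {M : C} (f : M ⟶ M') (g : M' ⟶ M) (A : κ → C) (a : ∀ k, M ⟶ A k)
      (b : ∀ k, A k ⟶ M), (∀ k, 𝒜 (A k)) → f ≫ g + ∑ k, a k ≫ b k = 𝟙 M →
      g ≫ f - 𝟙 M' ∈ through 𝒜 M' M' → Good 𝒜 M M'

/-- The decomposition lemma. -/
theorem decomposition [IsIdempotentComplete C] (hloc : ∀ A, 𝒜 A → Loc A) {M' : C} (κ : Type)
    [hκ : Fintype κ] : DecP 𝒜 M' κ := by
  refine Fintype.induction_empty_option (P := fun κ _ => DecP 𝒜 M' κ) ?_ ?_ ?_ κ
  · intro κ μ _ e ih M f g A a b hA h1 h2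
    refine ih f g (fun k => A (e k)) (fun k => a (e k)) (fun k => b (e k)) (fun k => hA (e k)) ?_ h2
    rw [← h1]
    congr 1
    exact @Fintype.sum_equiv κ μ _ (Fintype.ofEquiv μ e.symm) _ _ e _ _ (fun k => rfl)
  · intro M f g A a b hA h1 h2
    refine ⟨PEmpty, inferInstance, fun k => k.elim, M,
      { i0 := 𝟙 M
        r0 := 𝟙 M
        i := fun k => k.elim
        r := fun k => k.elim
        h0 := Category.comp_id _
        diag := fun k => k.elim
        off := fun k => k.elim
        off0 := fun k => k.elim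
        off1 := fun k => k.elim
        total := by simp }, f, g, fun k => k.elim, ?_, h2⟩
    simpa using h1
  · intro κ _ ih M f g A a b hA h1 h2
    rw [Fintype.sum_option] at h1
    have hl := hloc _ (hA none)
    by_cases hu : IsIso (b none ≫ a none)
    · -- split off `A none`
      have hp : (a none ≫ inv (b none ≫ a none) ≫ b none) ≫
          (a none ≫ inv (b none ≫ a none) ≫ b none) = a none ≫ inv (b none ≫ a none) ≫ b none := by
        have h3 : inv (b none ≫ a none) ≫ b none ≫ a none = 𝟙 _ := IsIso.inv_hom_id _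
        calc (a none ≫ inv (b none ≫ a none) ≫ b none) ≫
            (a none ≫ inv (b none ≫ a none) ≫ b none)
            = a none ≫ (inv (b none ≫ a none) ≫ b none ≫ a none) ≫ inv (b none ≫ a none) ≫
              b none := by simp only [Category.assoc]
          _ = _ := by rw [h3, Category.id_comp]
      set p := a none ≫ inv (b none ≫ a none) ≫ b none with hpdef
      have hq : (𝟙 M - p) ≫ (𝟙 M - p) = 𝟙 M - p := by
        simp only [Preadditive.sub_comp, Preadditive.comp_sub, Category.id_comp,
          Category.comp_id, hp]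
        abel
      obtain ⟨M₀, i, e, hie, hei⟩ := IsIdempotentComplete.idempotents_split M _ hq
      have hpa : p ≫ a none = a none := by
        rw [hpdef]
        have h3 : inv (b none ≫ a none) ≫ b none ≫ a none = 𝟙 _ := IsIso.inv_hom_id _
        simp only [Category.assoc]
        rw [h3, Category.comp_id]
      have hia : i ≫ a none = 0 := by
        have h3 : i ≫ (𝟙 M - p) ≫ a none = 0 := by
          rw [Preadditive.sub_comp, Category.id_comp, hpa, sub_self, comp_zero]
        rw [← hei, Category.assoc, ← Category.assoc i e, hie, Category.id_comp] at h3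
        exact h3
      refine good_split (hA none) i e (b none) (a none ≫ inv (b none ≫ a none)) hie ?_ ?_ ?_
      · rw [← Category.assoc]
        exact IsIso.hom_inv_id _
      · rw [hei, Category.assoc, ← hpdef]
        abel
      · refine ih (i ≫ f) (g ≫ e) (fun k => A (some k)) (fun k => i ≫ a (some k))
          (fun k => b (some k) ≫ e) (fun k => hA (some k)) ?_ ?_
        · have h3 : i ≫ (f ≫ g + (a none ≫ b none + ∑ k, a (some k) ≫ b (some k))) ≫ e = 𝟙 M₀ := by
            rw [h1, Category.id_comp, hie]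
          rw [Preadditive.add_comp, Preadditive.comp_add, Preadditive.add_comp,
            Preadditive.comp_add, Preadditive.sum_comp, Preadditive.comp_sum] at h3
          simp only [Category.assoc] at h3 ⊢
          rw [← Category.assoc i (a none), hia, zero_comp, zero_add] at h3
          exact h3
        · have h3 : (g ≫ e) ≫ i ≫ f - 𝟙 M' = (g ≫ f - 𝟙 M') - g ≫ p ≫ f := by
            rw [Category.assoc, ← Category.assoc e i f, hei, Preadditive.sub_comp,
              Preadditive.comp_sub, Category.id_comp]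
            abel
          rw [h3]
          refine AddSubgroup.sub_mem _ h2 ?_
          rw [hpdef]
          exact AddSubgroup.subset_closure ⟨A none, g ≫ a none, inv (b none ≫ a none) ≫ b none ≫ f,
            hA none, by simp only [Category.assoc]⟩
    · -- `1 - a none ≫ b none` is invertible
      have h3 := isIso_one_sub (a none) (b none) (hl.one_sub hu)
      set v := inv (𝟙 M - a none ≫ b none) with hv
      have h4 : 𝟙 M - a none ≫ b none = f ≫ g + ∑ k, a (some k) ≫ b (some k) := by
        rw [← h1]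
        abel
      have h5 : v ≫ (𝟙 M - a none ≫ b none) = 𝟙 M := IsIso.inv_hom_id _
      refine ih (v ≫ f) g (fun k => A (some k)) (fun k => v ≫ a (some k)) (fun k => b (some k))
        (fun k => hA (some k)) ?_ ?_
      · rw [h4, Preadditive.comp_add, Preadditive.comp_sum] at h5
        simp only [Category.assoc]
        exact h5
      · have h6 : g ≫ v ≫ f - 𝟙 M' = (g ≫ f - 𝟙 M') + g ≫ (v ≫ a none ≫ b none) ≫ f := by
          have h7 : v ≫ a none ≫ b none = v - 𝟙 M := by
            rw [Preadditive.comp_sub, Category.comp_id] at h5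
            rw [← h5]
            abel
          rw [h7, Preadditive.sub_comp, Preadditive.comp_sub, Category.id_comp]
          abel
        rw [h6]
        refine AddSubgroup.add_mem _ h2 ?_
        exact AddSubgroup.subset_closure ⟨A none, g ≫ v ≫ a none, b none ≫ f, hA none,
          by simp only [Category.assoc]⟩

end Pool.Agent.Lib.OrlovCurves
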