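import Pool.Agent.Lib.MP_5c0b30_ag.Defs
import Mathlib.CategoryTheory.Endomorphism
import Mathlib.CategoryTheory.Equivalence
import Mathlib.CategoryTheory.Idempotents.Basic
import Mathlib.RingTheory.LocalRing.Defs
import Mathlib.Algebra.Group.Subgroup.Lattice
import Mathlib.CategoryTheory.Preadditive.Biproducts
import Mathlib.LinearAlgebra.FiniteDimensional.Defs
import Mathlib.CategoryTheory.Linear.Basic

/-!
# Motives modulo the motives of curves: definitions

`C` is a category with a `ℤ`-action `X ↦ X⟦n⟧` (Chow motives with rational coefficients over a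
field, and the Tate twists), and `𝒜` is a class of objects with local endomorphism rings, for
example the simple factors of the motives of curves.
-/

set_option autoImplicit false

open CategoryTheory CategoryTheory.Limits

namespace Pool.Agent.Lib.OrlovCurves

open Pool.Agent.Lib.MP_5c0b30_ag

universe v u

variable {C : Type u} [Category.{v} C] [Preadditive C]

/-- The sums of morphisms `X ⟶ Y` that factor through objects of the class `𝒜`. -/
def through (𝒜 : C → Prop) (X Y : C) : AddSubgroup (X ⟶ Y) :=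
  AddSubgroup.closure {h | ∃ (A : C) (a : X ⟶ A) (b : A ⟶ Y), 𝒜 A ∧ a ≫ b = h}

/-- The direct sum of the finite family `B` is a direct summand of `X`. -/
def IsSummand {κ : Type} (B : κ → C) (X : C) : Prop :=
  ∃ (i : ∀ k, B k ⟶ X) (r : ∀ k, X ⟶ B k), (∀ k, i k ≫ r k = 𝟙 (B k)) ∧
    ∀ k l, k ≠ l → i k ≫ r l = 0

/-- The same powers of `A` are direct summands of `M` and of `M'`. -/
def SameMult (A M M' : C) : Prop :=
  ∀ n : ℕ, IsSummand (fun _ : Fin n => A) M ↔ IsSummand (fun _ : Fin n => A) M'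

variable [HasShift C ℤ]

/-- The class `𝒜` is stable under the twists, its objects have local endomorphism rings and are not
isomorphic to nontrivial twists of themselves. -/
structure IsPieces (𝒜 : C → Prop) : Prop where
  isLocal : ∀ A, 𝒜 A → IsLocalRing (End A)
  shift : ∀ A, 𝒜 A → ∀ n : ℤ, 𝒜 (A⟦n⟧)
  free : ∀ A, 𝒜 A → ∀ n : ℤ, n ≠ 0 → IsEmpty (A ≅ A⟦n⟧)

/-- The number of twists of `A`, with multiplicities, in decompositions of `M` is bounded. -/
def BoundedMult (A M : C) : Prop :=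
  ∃ N : ℕ, ∀ (n : ℕ) (s : Fin n → ℤ), IsSummand (fun k => A⟦s k⟧) M → n ≤ N

variable (C) in
/-- A two-sided ideal of morphisms of `C`, stable under the twists. -/
structure TwistIdeal where
  mem : ∀ X Y : C, AddSubgroup (X ⟶ Y)
  comp_mem : ∀ {X Y Z : C} (f : X ⟶ Y) (g : Y ⟶ Z), g ∈ mem Y Z → f ≫ g ∈ mem X Z
  mem_comp : ∀ {X Y Z : C} (f : X ⟶ Y) (g : Y ⟶ Z), f ∈ mem X Y → f ≫ g ∈ mem X Z
  map_mem : ∀ {X Y : C} (f : X ⟶ Y) (n : ℤ), f ∈ mem X Y → f⟦n⟧' ∈ mem (X⟦n⟧) (Y⟦n⟧)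

/-- For the endomorphisms `x` of `X` in `I`, `1 - x` is invertible modulo `𝒜`. -/
def TwistIdeal.Small (I : TwistIdeal C) (𝒜 : C → Prop) (X : C) : Prop :=
  ∀ x : X ⟶ X, x ∈ I.mem X X → ∃ y : X ⟶ X, (𝟙 X - x) ≫ y - 𝟙 X ∈ through 𝒜 X X ∧
    y ≫ (𝟙 X - x) - 𝟙 X ∈ through 𝒜 X X

/-- `M` and `M'` are isomorphic modulo `I`. -/
def TwistIdeal.Isom (I : TwistIdeal C) (M M' : C) : Prop :=
  ∃ (f : M ⟶ M') (g : M' ⟶ M), f ≫ g - 𝟙 M ∈ I.mem M M ∧ g ≫ f - 𝟙 M' ∈ I.mem M' M'

/-- In each pair of opposite nonzero degrees one of the two components of `e` and of its inverse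
belongs to `I`: for example all components of negative degree, or all components of positive degree,
of `e` and of its inverse. -/
def OneSided (I : TwistIdeal C) {M M' : C} (e : OrbitEquiv M M') : Prop :=
  ∀ n : ℤ, n ≠ 0 → e.hom n ∈ I.mem M (M'⟦n⟧) ∨ e.inv (-n) ∈ I.mem M' (M⟦-n⟧)

/-- All components of negative degree of `e` and of its inverse belong to `I`. -/
def NegativeIn (I : TwistIdeal C) {M M' : C} (e : OrbitEquiv M M') : Prop :=
  ∀ n < 0, e.hom n ∈ I.mem M (M'⟦n⟧) ∧ e.inv n ∈ I.mem M' (M⟦n⟧)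

/-- An `𝔰𝔩₂`-triple `N`, `h`, `Λ` modulo `I`, of degrees `1`, `0` and `-1`. -/
structure Triple (I : TwistIdeal C) (M : C) where
  N : M ⟶ M⟦(1 : ℤ)⟧
  Λ : M ⟶ M⟦(-1 : ℤ)⟧
  h : M ⟶ M
  rel : ShiftedHom.comp Λ N (add_neg_cancel 1) - ShiftedHom.comp N Λ (neg_add_cancel 1) -
    ShiftedHom.mk₀ 0 rfl h ∈ I.mem M (M⟦(0 : ℤ)⟧)

/-- The morphisms `M ⟶ M'⟦n⟧` change the weights with respect to `h` and `h'` by `2 n`, and there
are none for small `n`, everything modulo `I`. -/
structure IsPure (I : TwistIdeal C) {M M' : C} (h : M ⟶ M) (h' : M' ⟶ M') : Prop where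
  weight : ∀ (n : ℤ) (f : M ⟶ M'⟦n⟧), f ≫ h'⟦n⟧' - h ≫ f - (2 * n) • f ∈ I.mem M (M'⟦n⟧)
  bounded : ∃ b : ℤ, ∀ n < b, ∀ f : M ⟶ M'⟦n⟧, f ∈ I.mem M (M'⟦n⟧)

/-- `N` satisfies the hard Lefschetz theorem modulo `I` on `M` and on `M'`, and the isomorphism `e`
in the orbit category commutes with it. -/
def Lefschetz (I : TwistIdeal C) {M M' : C} (e : OrbitEquiv M M') : Prop :=
  ∃ (t : Triple I M) (t' : Triple I M'), IsPure I t.h t'.h ∧ IsPure I t'.h t.h ∧
    ∀ n : ℤ, ShiftedHom.comp (e.hom n) t'.N (add_comm 1 n) -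
      ShiftedHom.comp t.N (e.hom n) rfl ∈ I.mem M (M'⟦n + 1⟧)

/-- `Θ` is a duality of `C` with `Θ M ≅ M` and `Θ M' ≅ M'` (Poincaré duality), and for every `A` in
`𝒜` the multiplicities of `A⟦i⟧` in `M` and in `M'` are bounded, and they are known to be equal for
all `i` outside one orbit `{n, n'}` of the duality, `A⟦n'⟧ ≅ Θ (A⟦n⟧)`. -/
def KnownUpToDuality (𝒜 : C → Prop) (M M' : C) : Prop :=
  ∃ Θ : Cᵒᵖ ≌ C, Nonempty (Θ.functor.obj (Opposite.op M) ≅ M) ∧
    Nonempty (Θ.functor.obj (Opposite.op M') ≅ M') ∧ (∀ A, 𝒜 A → BoundedMult A M) ∧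
    ∀ A, 𝒜 A → ∃ n : ℤ, ∀ i : ℤ, SameMult (A⟦i⟧) M M' ∨ i = n ∨
      Nonempty (A⟦i⟧ ≅ Θ.functor.obj (Opposite.op (A⟦n⟧)))

/-- Cancellation of direct summands. -/
def Cancels (V : Type*) [Category* V] [Preadditive V] [HasBinaryBiproducts V] : Prop :=
  ∀ X Y Z : V, Nonempty (X ⊞ Y ≅ X ⊞ Z) → Nonempty (Y ≅ Z)

omit [HasShift C ℤ] in
/-- The functor `H` detects isomorphisms between finite direct sums of objects of the class `𝒜`. -/
def Detects [HasFiniteBiproducts C] {V : Type*} [Category* V] (H : C ⥤ V) (𝒜 : C → Prop) : Prop :=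
  ∀ (n m : ℕ) (B : Fin n → C) (B' : Fin m → C), (∀ k, 𝒜 (B k)) → (∀ k, 𝒜 (B' k)) →
    Nonempty (H.obj (⨁ B) ≅ H.obj (⨁ B')) → Nonempty (⨁ B ≅ ⨁ B')

omit [HasShift C ℤ] in
/-- `M` and `M'` have isomorphic realizations under an additive functor that detects isomorphisms
between finite direct sums of objects of `𝒜`, and whose target has the cancellation property. -/
def SameRealization.{v₂, u₂} [HasFiniteBiproducts C] (𝒜 : C → Prop) (M M' : C) : Prop :=
  ∃ (V : Type u₂) (_ : Category.{v₂} V) (_ : Preadditive V) (_ : HasBinaryBiproducts V)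
    (H : C ⥤ V), H.Additive ∧ Cancels V ∧ Detects H 𝒜 ∧ Nonempty (H.obj M ≅ H.obj M')

/-- `M` and `M'` have isomorphic realizations under an additive functor `H` to a `ℚ`-linear category
with the cancellation property such that `End (H M)` has finite dimension, the endomorphisms `x` of
`M` in `I` with `H x = 0` are nilpotent, and `H` detects isomorphisms between the objects whose
identity belongs to `I`. -/
def Realized.{v₂, u₂} (I : TwistIdeal C) (M M' : C) : Prop :=
  ∃ (V : Type u₂) (_ : Category.{v₂} V) (_ : Preadditive V) (_ : Linear ℚ V)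
    (_ : HasBinaryBiproducts V) (H : C ⥤ V), H.Additive ∧ Module.Finite ℚ (End (H.obj M)) ∧
    Cancels V ∧ (∀ x : End M, x ∈ I.mem M M → H.map x = 0 → IsNilpotent x) ∧
    (∀ A A' : C, 𝟙 A ∈ I.mem A A → 𝟙 A' ∈ I.mem A' A' →
      Nonempty (H.obj A ≅ H.obj A') → Nonempty (A ≅ A')) ∧ Nonempty (H.obj M ≅ H.obj M')

/-- `M` and `M'` are isomorphic in the orbit category, and for a class `𝒜` of objects with local
endomorphism rings such that the endomorphisms of `M` and of `M'` in `I` are small modulo `𝒜`, the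
multiplicities of its objects in `M` and in `M'` are known to be equal up to duality. -/
def Counted (I : TwistIdeal C) (M M' : C) : Prop :=
  ∃ 𝒜 : C → Prop, IsPieces 𝒜 ∧ I.Small 𝒜 M ∧ I.Small 𝒜 M' ∧ Nonempty (OrbitEquiv M M') ∧
    KnownUpToDuality 𝒜 M M'

end Pool.Agent.Lib.OrlovCurves
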