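import Pool.Agent.Lib.OrlovCurves.Defs
import Pool.Agent.Lib.OrlovCurves.Dec

/-!
# Existence of frames
-/

set_option autoImplicit false

open CategoryTheory CategoryTheory.Limits

namespace Pool.Agent.Lib.OrlovCurves

universe v u

/-- A bounded nonempty set of natural numbers has a largest element. -/
lemma exists_max {P : ℕ → Prop} (h0 : P 0) {N : ℕ} (hN : ∀ n, P n → n ≤ N) :
    ∃ n, P n ∧ ∀ m, P m → m ≤ n := by
  have h1 : {n | P n}.Nonempty := ⟨0, h0⟩
  have h2 : BddAbove {n | P n} := ⟨N, fun n hn => hN n hn⟩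
  exact ⟨sSup {n | P n}, Nat.sSup_mem h1 h2, fun m hm => le_csSup h2 hm⟩

section

variable {D : Type u} [Category.{v} D] [Preadditive D]

/-- the ideal of the noninvertible endomorphisms of a local object -/
def Loc.rad {A : D} (hA : Loc A) : Rad A where
  J := {f | ¬ IsIso f}
  zero := hA.1
  add _ _ hf hg := hA.add hf hg
  left f g hg := fun h => hg (hA.comp_right f g h)
  right f g hf := fun h => hf (hA.comp_left f g h)
  one := fun h => h inferInstance
  unit f hf := by
    have h1 : IsIso f := not_not.1 hf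
    refine ⟨inv f, ?_, ?_⟩
    · rw [IsIso.hom_inv_id, sub_self]
      exact hA.1
    · rw [IsIso.inv_hom_id, sub_self]
      exact hA.1

/-- restriction of a family of direct summands -/
lemma IsSummand.comp {κ μ : Type} {B : κ → D} {X : D} (h : IsSummand B X) (e : μ → κ)
    (he : Function.Injective e) : IsSummand (fun k => B (e k)) X := by
  obtain ⟨i, r, h1, h2⟩ := h
  exact ⟨fun k => i (e k), fun k => r (e k), fun k => h1 _, fun k l hkl => h2 _ _
    (fun h => hkl (he h))⟩

/-- transport of a family of direct summands -/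
lemma IsSummand.trans {κ : Type} {B : κ → D} {X Y : D} (h : IsSummand B X) (i : X ⟶ Y) (r : Y ⟶ X)
    (hir : i ≫ r = 𝟙 X) : IsSummand B Y := by
  obtain ⟨j, q, h1, h2⟩ := h
  refine ⟨fun k => j k ≫ i, fun k => r ≫ q k, fun k => ?_, fun k l hkl => ?_⟩
  · rw [Category.assoc, ← Category.assoc i, hir, Category.id_comp, h1]
  · rw [Category.assoc, ← Category.assoc i, hir, Category.id_comp, h2 k l hkl]

/-- replacement of the summands by isomorphic ones -/
lemma IsSummand.congr {κ : Type} {B B' : κ → D} {X : D} (h : IsSummand B X)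
    (α : ∀ k, B k ≅ B' k) : IsSummand B' X := by
  obtain ⟨j, q, h1, h2⟩ := h
  refine ⟨fun k => (α k).inv ≫ j k, fun k => q k ≫ (α k).hom, fun k => ?_, fun k l hkl => ?_⟩
  · rw [Category.assoc, ← Category.assoc (j k), h1, Category.id_comp, Iso.inv_hom_id]
  · rw [Category.assoc, ← Category.assoc (j k), h2 k l hkl, zero_comp, comp_zero]

/-- extension of a family of direct summands -/
lemma IsSummand.extend {κ : Type} [Fintype κ] {B : κ → D} {X : D} (i : ∀ k, B k ⟶ X)
    (r : ∀ k, X ⟶ B k) (h1 : ∀ k, i k ≫ r k = 𝟙 (B k)) (h2 : ∀ k l, k ≠ l → i k ≫ r l = 0)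
    {A : D} (φ : A ⟶ X) (ψ : X ⟶ A) (h : IsIso (φ ≫ (𝟙 X - ∑ k, r k ≫ i k) ≫ ψ)) :
    IsSummand (fun k : Option κ => k.elim A B) X := by
  classical
  set q := 𝟙 X - ∑ k, r k ≫ i k with hq
  have hiq : ∀ k, i k ≫ q = 0 := by
    intro k
    rw [hq, Preadditive.comp_sub, Category.comp_id, Preadditive.comp_sum,
      Finset.sum_eq_single k, ← Category.assoc, h1, Category.id_comp, sub_self]
    · intro l _ hl
      rw [← Category.assoc, h2 k l (Ne.symm hl), zero_comp]
    · intro hk
      exact absurd (Finset.mem_univ k) hk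
  have hqr : ∀ k, q ≫ r k = 0 := by
    intro k
    rw [hq, Preadditive.sub_comp, Category.id_comp, Preadditive.sum_comp,
      Finset.sum_eq_single k, Category.assoc, h1, Category.comp_id, sub_self]
    · intro l _ hl
      rw [Category.assoc, h2 l k hl, comp_zero]
    · intro hk
      exact absurd (Finset.mem_univ k) hk
  have hqq : q ≫ q = q := by
    have h3 : (∑ k, r k ≫ i k) ≫ q = 0 := by
      rw [Preadditive.sum_comp]
      refine Finset.sum_eq_zero (fun k _ => ?_)
      rw [Category.assoc, hiq, comp_zero]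
    calc q ≫ q = (𝟙 X - ∑ k, r k ≫ i k) ≫ q := by rw [← hq]
      _ = q := by rw [Preadditive.sub_comp, h3, sub_zero, Category.id_comp]
  obtain ⟨u, hu, -⟩ := h.out
  refine ⟨fun k => match k with
      | none => φ ≫ q
      | some k => i k, fun k => match k with
      | none => q ≫ ψ ≫ u
      | some k => r k, ?_, ?_⟩
  · rintro (_ | k)
    · change (φ ≫ q) ≫ q ≫ ψ ≫ u = 𝟙 A
      calc (φ ≫ q) ≫ q ≫ ψ ≫ u = φ ≫ (q ≫ q) ≫ ψ ≫ u := by
            simp only [Category.assoc]
        _ = (φ ≫ q ≫ ψ) ≫ u := by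
            rw [hqq]
            simp only [Category.assoc]
        _ = 𝟙 A := hu
    · exact h1 k
  · rintro (_ | k) (_ | l) hkl
    · exact absurd rfl hkl
    · change (φ ≫ q) ≫ r l = 0
      rw [Category.assoc, hqr, comp_zero]
    · change i k ≫ q ≫ ψ ≫ u = 0
      rw [← Category.assoc, hiq, zero_comp]
    · exact h2 k l (fun h => hkl (by rw [h]))

/-- a split family gives a family of summands -/
lemma Split.isSummand {A X : D} {κ : Type} (F : Split A X κ) : IsSummand (fun _ : κ => A) X :=
  ⟨F.i, F.r, F.diag, F.off⟩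

/-- a family of summands gives a split family -/
lemma IsSummand.split {A X : D} {κ : Type} (h : IsSummand (fun _ : κ => A) X) :
    Nonempty (Split A X κ) := by
  obtain ⟨i, r, h1, h2⟩ := h
  exact ⟨⟨i, r, h1, h2⟩⟩

/-- Frames exist if the multiplicity is bounded. -/
theorem exists_frame {A X : D} (hA : Loc A) {N : ℕ}
    (hN : ∀ n, IsSummand (fun _ : Fin n => A) X → n ≤ N) :
    ∃ n, Nonempty (Frame hA.rad X (Fin n)) := by
  obtain ⟨n, hn, hmax⟩ := exists_max (P := fun n => IsSummand (fun _ : Fin n => A) X)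
    ⟨fun k => k.elim0, fun k => k.elim0, fun k => k.elim0, fun k => k.elim0⟩ hN
  obtain ⟨F⟩ := hn.split
  refine ⟨n, ⟨{ F with rest := fun φ ψ => ?_ }⟩⟩
  intro h
  have h1 := IsSummand.extend F.i F.r F.diag F.off φ ψ h
  have h2 := (h1.comp (finSuccEquiv n) (finSuccEquiv n).injective).congr (B' := fun _ => A)
    (fun k => eqToIso (by
      rcases (finSuccEquiv n) k with _ | k
      · rfl
      · rfl))
  have h3 := hmax _ h2
  omega

/-- the size of a frame is the multiplicity -/
theorem Frame.isSummand_iff {A X : D} {J : Rad A} {κ : Type} [Fintype κ] (F : Frame J X κ)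
    (n : ℕ) : IsSummand (fun _ : Fin n => A) X ↔ n ≤ Fintype.card κ := by
  constructor
  · intro h
    obtain ⟨G⟩ := h.split
    have h1 := G.card_le J F
    rwa [Fintype.card_fin] at h1
  · intro h
    exact F.toSplit.isSummand.comp
      (fun k : Fin n => (Fintype.equivFin κ).symm (Fin.castLE h k))
      ((Fintype.equivFin κ).symm.injective.comp (Fin.castLE_injective h))

end

end Pool.Agent.Lib.OrlovCurves
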