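import Pool.Agent.Lib.OrlovCurves.Defs
import Mathlib.Algebra.Polynomial.FieldDivision
import Mathlib.RingTheory.PrincipalIdealDomain
import Mathlib.FieldTheory.Minpoly.Basic
import Mathlib.RingTheory.IntegralClosure.Algebra.Basic
import Mathlib.CategoryTheory.Preadditive.AdditiveFunctor
import Mathlib.CategoryTheory.Linear.LinearFunctor
import Mathlib.Algebra.Algebra.Rat
import Mathlib.Algebra.Algebra.Hom.Rat
import Mathlib.RingTheory.Algebraic.Integral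
import Mathlib.LinearAlgebra.FiniteDimensional.Defs

/-!
# The Fitting decomposition modulo an ideal

If `f ≫ g = 1 + x` with `x` in the ideal `I` and `x` satisfies a polynomial equation over `ℚ`, then
`M = M₀ ⊕ A` and `M' = M₀ ⊕ A'` with `𝟙 A` and `𝟙 A'` in `I`.
-/

set_option autoImplicit false

open CategoryTheory CategoryTheory.Limits

namespace Pool.Agent.Lib.OrlovCurves

open Polynomial in
/-- Fitting idempotent of `1 + x`, if `x` is a root of a polynomial divisible by `X`. -/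
lemma fitting_ring {R : Type*} [Ring R] [Algebra ℚ R] (x : R) (r : ℚ[X]) (hr : r ≠ 0)
    (h0 : (X : ℚ[X]) ∣ r) (hx : aeval x r = 0) :
    ∃ ε v w : R, ε * ε = ε ∧ (1 + x) * v = ε ∧ v * (1 + x) = ε ∧ ε * v = v ∧ v * ε = v ∧
      1 - ε = x * w := by
  obtain ⟨s, hs, hns⟩ := exists_eq_pow_rootMultiplicity_mul_and_not_dvd r hr (-1)
  obtain ⟨m, hm⟩ : ∃ m, r.rootMultiplicity (-1) = m := ⟨_, rfl⟩
  rw [hm] at hs
  obtain ⟨P, hP⟩ : ∃ P : ℚ[X], X - C (-1) = P := ⟨_, rfl⟩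
  rw [hP] at hs hns
  have hPx : aeval x P = 1 + x := by
    rw [← hP, map_sub, aeval_X, aeval_C, map_neg, map_one, sub_neg_eq_add, add_comm]
  have hcop : IsCoprime (P ^ (m + 1)) s := by
    have h1 : Irreducible P := hP ▸ irreducible_X_sub_C (-1 : ℚ)
    exact (h1.coprime_iff_not_dvd.2 hns).pow_left
  obtain ⟨a, b, hab⟩ := hcop
  have hXs : (X : ℚ[X]) ∣ s := by
    rw [hs] at h0
    rcases (prime_X.dvd_mul.1 h0) with h1 | h1
    · exfalso
      have h2 := prime_X.dvd_of_dvd_pow h1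
      rw [X_dvd_iff, ← hP] at h2
      simp at h2
    · exact h1
  obtain ⟨s', hs'⟩ := hXs
  obtain ⟨ε, hε⟩ : ∃ ε, aeval x (a * P ^ (m + 1)) = ε := ⟨_, rfl⟩
  obtain ⟨w₀, hw₀⟩ : ∃ w₀, aeval x (a * P ^ m) = w₀ := ⟨_, rfl⟩
  have hεε : ε * ε = ε := by
    rw [← hε, ← map_mul, ← sub_eq_zero, ← map_sub]
    have e : a * P ^ (m + 1) * (a * P ^ (m + 1)) - a * P ^ (m + 1) = -(a * b * P) * r := by
      have : a * P ^ (m + 1) = 1 - b * s := by rw [← hab]; ring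
      calc a * P ^ (m + 1) * (a * P ^ (m + 1)) - a * P ^ (m + 1)
          = -(a * P ^ (m + 1)) * (1 - a * P ^ (m + 1)) := by ring
        _ = -(a * P ^ (m + 1)) * (b * s) := by rw [this]; ring
        _ = -(a * b * P) * (P ^ m * s) := by ring
        _ = _ := by rw [← hs]
    rw [e, map_mul, hx, mul_zero]
  have h1 : (1 + x) * w₀ = ε := by
    rw [← hPx, ← hw₀, ← hε, ← map_mul]
    congr 1
    ring
  have h2 : w₀ * (1 + x) = ε := by
    rw [← hPx, ← hw₀, ← hε, ← map_mul]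
    congr 1
    ring
  have h3 : w₀ * ε = ε * w₀ := by
    rw [← hw₀, ← hε, ← map_mul, ← map_mul, mul_comm]
  have h4 : (1 + x) * ε = ε * (1 + x) := by
    rw [← hPx, ← hε, ← map_mul, ← map_mul, mul_comm]
  refine ⟨ε, ε * w₀, aeval x (b * s'), hεε, ?_, ?_, ?_, ?_, ?_⟩
  · rw [← mul_assoc, h4, mul_assoc, h1, hεε]
  · rw [mul_assoc, h2, hεε]
  · rw [← mul_assoc, hεε]
  · rw [mul_assoc, h3, ← mul_assoc, hεε]
  · have e : aeval x (b * s) = x * aeval x (b * s') := by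
      have e1 : b * s = X * (b * s') := by rw [hs']; ring
      rw [e1, map_mul, aeval_X]
    rw [← e, ← hε, ← map_one (aeval (R := ℚ) x), ← hab, map_add, add_sub_cancel_left]

universe v u v' u'

variable {C : Type u} [Category.{v} C] [Preadditive C] [HasShift C ℤ]

lemma TwistIdeal.mul_mem (I : TwistIdeal C) {X : C} (x w : End X) (hx : x ∈ I.mem X X) :
    (x * w : End X) ∈ I.mem X X := I.comp_mem w x hx

/-- The endomorphisms in `I` are algebraic over `ℚ`, if a realization has finite dimensional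
endomorphism ring and those in `I` with zero realization are nilpotent. -/
lemma exists_polynomial [Linear ℚ C] (I : TwistIdeal C) {M : C} {V : Type u'} [Category.{v'} V]
    [Preadditive V] [Linear ℚ V] (H : C ⥤ V) [H.Additive]
    [hfin : Module.Finite ℚ (End (H.obj M))]
    (hnil : ∀ x : End M, x ∈ I.mem M M → H.map x = 0 → IsNilpotent x) (x : End M)
    (hx : x ∈ I.mem M M) :
    ∃ r : Polynomial ℚ, r ≠ 0 ∧ (Polynomial.X : Polynomial ℚ) ∣ r ∧ Polynomial.aeval x r = 0 := by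
  -- the ring homomorphism `End M → End (H M)`
  let φ : End M →+* End (H.obj M) :=
    { toFun := fun y => H.map y
      map_one' := H.map_id M
      map_mul' := fun y z => H.map_comp z y
      map_zero' := H.map_zero M M
      map_add' := fun y z => H.map_add }
  let ψ : End M →ₐ[ℚ] End (H.obj M) := φ.toRatAlgHom
  obtain ⟨p, hp, hp0⟩ := IsIntegral.isAlgebraic (Algebra.IsIntegral.isIntegral (R := ℚ) (ψ x))
  have h1 : ψ (Polynomial.aeval x (Polynomial.X * p)) = 0 := by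
    rw [← Polynomial.aeval_algHom_apply, map_mul, hp0, mul_zero]
  have h2 : (Polynomial.aeval x (Polynomial.X * p) : End M) ∈ I.mem M M := by
    rw [map_mul, Polynomial.aeval_X]
    exact I.mul_mem _ _ hx
  obtain ⟨n, hn⟩ := hnil _ h2 h1
  refine ⟨(Polynomial.X * p) ^ (n + 1), ?_, ?_, ?_⟩
  · exact pow_ne_zero _ (mul_ne_zero Polynomial.X_ne_zero hp)
  · exact (Dvd.intro _ rfl).trans (dvd_pow_self _ (Nat.succ_ne_zero n))
  · rw [map_pow, pow_succ, hn, zero_mul]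


omit [HasShift C ℤ] in
/-- `X = Y ⊕ Z` -/
lemma biprod_iso [HasBinaryBiproducts C] {X Y Z : C} (i : Y ⟶ X) (p : X ⟶ Y) (j : Z ⟶ X)
    (q : X ⟶ Z) (hi : i ≫ p = 𝟙 Y) (hj : j ≫ q = 𝟙 Z) (h : p ≫ i + q ≫ j = 𝟙 X) :
    Nonempty (X ≅ Y ⊞ Z) := by
  have hij : i ≫ q = 0 := by
    have h1 : i ≫ (p ≫ i + q ≫ j) ≫ q = i ≫ q := by rw [h, Category.id_comp]
    rw [Preadditive.add_comp, Preadditive.comp_add, Category.assoc, Category.assoc, hj,
      Category.comp_id, ← Category.assoc, hi, Category.id_comp] at h1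
    exact left_eq_add.1 h1.symm
  have hji : j ≫ p = 0 := by
    have h1 : j ≫ (p ≫ i + q ≫ j) ≫ p = j ≫ p := by rw [h, Category.id_comp]
    rw [Preadditive.add_comp, Preadditive.comp_add, Category.assoc, Category.assoc, hi,
      Category.comp_id, ← Category.assoc j q, hj, Category.id_comp] at h1
    exact left_eq_add.1 h1.symm
  refine ⟨⟨biprod.lift p q, biprod.desc i j, ?_, ?_⟩⟩
  · rw [biprod.lift_desc, h]
  · apply biprod.hom_ext'
    · apply biprod.hom_ext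
      · simp [hi]
      · simp [hij]
    · apply biprod.hom_ext
      · simp [hji]
      · simp [hj]

/-- The parallel decomposition `M = M₀ ⊕ A`, `M' = M₀ ⊕ A'` with `𝟙 A` and `𝟙 A'` in `I`. -/
theorem fitting_pair [Linear ℚ C] [HasBinaryBiproducts C] [IsIdempotentComplete C]
    (I : TwistIdeal C) {M M' : C} (f : M ⟶ M') (g : M' ⟶ M) (x : End M)
    (hxfg : x = f ≫ g - 𝟙 M) (h : f ≫ g - 𝟙 M ∈ I.mem M M)
    (h' : g ≫ f - 𝟙 M' ∈ I.mem M' M') (r : Polynomial ℚ) (hr : r ≠ 0)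
    (h0 : (Polynomial.X : Polynomial ℚ) ∣ r) (hx : Polynomial.aeval x r = 0) :
    ∃ M₀ A A' : C, 𝟙 A ∈ I.mem A A ∧ 𝟙 A' ∈ I.mem A' A' ∧ Nonempty (M ≅ M₀ ⊞ A) ∧
      Nonempty (M' ≅ M₀ ⊞ A') := by
  obtain ⟨ε, v, e1, e2, e3, e4, e5, hε⟩ : ∃ (ε v : M ⟶ M), ε ≫ ε = ε ∧ v ≫ f ≫ g = ε ∧
      (f ≫ g) ≫ v = ε ∧ v ≫ ε = v ∧ ε ≫ v = v ∧ 𝟙 M - ε ∈ I.mem M M := by
    obtain ⟨ε, v, w, e1, e2, e3, e4, e5, e6⟩ := fitting_ring x r hr h0 hx
    have hu : (1 + x : End M) = f ≫ g := by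
      rw [hxfg]
      exact add_sub_cancel (𝟙 M) (f ≫ g)
    rw [hu] at e2 e3
    refine ⟨ε, v, e1, e2, e3, e4, e5, ?_⟩
    have : (1 - ε : End M) ∈ I.mem M M := by
      rw [e6]
      exact I.mul_mem _ _ (by rw [hxfg]; exact h)
    exact this
  have hv : v - 𝟙 M ∈ I.mem M M := by
    have e : v - 𝟙 M = -((f ≫ g - 𝟙 M) ≫ v) - (𝟙 M - ε) := by
      rw [Preadditive.sub_comp, e3, Category.id_comp]
      abel
    rw [e]
    exact AddSubgroup.sub_mem _ (AddSubgroup.neg_mem _ (I.mem_comp _ _ h)) hε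
  have e7 : (g ≫ v ≫ f) ≫ (g ≫ v ≫ f) = g ≫ v ≫ f := by
    calc (g ≫ v ≫ f) ≫ (g ≫ v ≫ f) = g ≫ (v ≫ f ≫ g) ≫ v ≫ f := by
          simp only [Category.assoc]
      _ = g ≫ (ε ≫ v) ≫ f := by rw [e2]; simp only [Category.assoc]
      _ = _ := by rw [e5]
  have hε' : 𝟙 M' - g ≫ v ≫ f ∈ I.mem M' M' := by
    have e : 𝟙 M' - g ≫ v ≫ f = -(g ≫ f - 𝟙 M') - g ≫ (v - 𝟙 M) ≫ f := by
      rw [Preadditive.sub_comp, Category.id_comp, Preadditive.comp_sub]
      abel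
    rw [e]
    exact AddSubgroup.sub_mem _ (AddSubgroup.neg_mem _ h') (I.comp_mem _ _ (I.mem_comp _ _ hv))
  have hc : ∀ {X : C} {e : X ⟶ X}, e ≫ e = e → (𝟙 X - e) ≫ (𝟙 X - e) = 𝟙 X - e := by
    intro X e he
    rw [Preadditive.sub_comp, Preadditive.comp_sub, Preadditive.comp_sub, he, Category.comp_id,
      Category.id_comp, Category.comp_id]
    abel
  obtain ⟨M₀, i, p, hip, hpi⟩ := IsIdempotentComplete.idempotents_split M ε e1
  obtain ⟨A, j, q, hjq, hqj⟩ := IsIdempotentComplete.idempotents_split M (𝟙 M - ε) (hc e1)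
  obtain ⟨M₁, i', p', hip', hpi'⟩ :=
    IsIdempotentComplete.idempotents_split M' (g ≫ v ≫ f) e7
  obtain ⟨A', j', q', hjq', hqj'⟩ :=
    IsIdempotentComplete.idempotents_split M' (𝟙 M' - g ≫ v ≫ f) (hc e7)
  have hA : 𝟙 A ∈ I.mem A A := by
    have e : 𝟙 A = j ≫ (𝟙 M - ε) ≫ q := by
      rw [← hqj]
      simp only [Category.assoc, hjq, Category.comp_id]
    rw [e]
    exact I.comp_mem _ _ (I.mem_comp _ _ hε)
  have hA' : 𝟙 A' ∈ I.mem A' A' := by
    have e : 𝟙 A' = j' ≫ (𝟙 M' - g ≫ v ≫ f) ≫ q' := by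
      rw [← hqj']
      simp only [Category.assoc, hjq', Category.comp_id]
    rw [e]
    exact I.comp_mem _ _ (I.mem_comp _ _ hε')
  have hiso : Nonempty (M₁ ≅ M₀) := by
    refine ⟨⟨i' ≫ g ≫ v ≫ p, i ≫ f ≫ p', ?_, ?_⟩⟩
    · calc (i' ≫ g ≫ v ≫ p) ≫ i ≫ f ≫ p' = i' ≫ g ≫ v ≫ (p ≫ i) ≫ f ≫ p' := by
            simp only [Category.assoc]
        _ = i' ≫ (g ≫ (v ≫ ε) ≫ f) ≫ p' := by rw [hpi]; simp only [Category.assoc]
        _ = i' ≫ (p' ≫ i') ≫ p' := by rw [e4, hpi']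
        _ = (i' ≫ p') ≫ (i' ≫ p') := by simp only [Category.assoc]
        _ = 𝟙 M₁ := by rw [hip', Category.comp_id]
    · calc (i ≫ f ≫ p') ≫ i' ≫ g ≫ v ≫ p = i ≫ f ≫ (p' ≫ i') ≫ g ≫ v ≫ p := by
            simp only [Category.assoc]
        _ = i ≫ ((f ≫ g) ≫ v) ≫ ((f ≫ g) ≫ v) ≫ p := by
            rw [hpi']; simp only [Category.assoc]
        _ = i ≫ (p ≫ i) ≫ (p ≫ i) ≫ p := by rw [e3, hpi]
        _ = (i ≫ p) ≫ (i ≫ p) ≫ (i ≫ p) := by simp only [Category.assoc]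
        _ = 𝟙 M₀ := by rw [hip, Category.comp_id, Category.comp_id]
  obtain ⟨s⟩ := hiso
  refine ⟨M₀, A, A', hA, hA', biprod_iso i p j q hip hjq ?_,
    biprod_iso (s.inv ≫ i') (p' ≫ s.hom) j' q' ?_ hjq' ?_⟩
  · rw [hpi, hqj]
    abel
  · rw [Category.assoc, ← Category.assoc i', hip', Category.id_comp, s.inv_hom_id]
  · rw [Category.assoc, ← Category.assoc s.hom, s.hom_inv_id, Category.id_comp, hpi', hqj']
    abel

/-- **The criterion by a realization**: `M ≅ M'` if they are isomorphic modulo `I`, have isomorphic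
realizations, the endomorphisms of `M` in `I` with zero realization are nilpotent, and the
realization detects isomorphisms between objects `A` with `𝟙 A ∈ I`. -/
theorem iso_of_fitting [Linear ℚ C] [HasBinaryBiproducts C] [IsIdempotentComplete C]
    (I : TwistIdeal C) {M M' : C} {V : Type u'} [Category.{v'} V] [Preadditive V] [Linear ℚ V]
    [HasBinaryBiproducts V] (H : C ⥤ V) [H.Additive] (hfin : Module.Finite ℚ (End (H.obj M)))
    (hV : Cancels V) (hnil : ∀ x : End M, x ∈ I.mem M M → H.map x = 0 → IsNilpotent x)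
    (hdet : ∀ A A' : C, 𝟙 A ∈ I.mem A A → 𝟙 A' ∈ I.mem A' A' →
      Nonempty (H.obj A ≅ H.obj A') → Nonempty (A ≅ A'))
    (hH : Nonempty (H.obj M ≅ H.obj M')) (h : I.Isom M M') : Nonempty (M ≅ M') := by
  obtain ⟨f, g, h1, h2⟩ := h
  obtain ⟨r, hr, h0, hx⟩ := exists_polynomial I H hnil (f ≫ g - 𝟙 M) h1
  obtain ⟨M₀, A, A', hA, hA', ⟨a⟩, ⟨a'⟩⟩ := fitting_pair I f g _ rfl h1 h2 r hr h0 hx
  obtain ⟨b⟩ := hH
  have hb : ∀ X Y : C, Nonempty (H.obj (X ⊞ Y) ≅ H.obj X ⊞ H.obj Y) := by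
    intro X Y
    refine biprod_iso (H.map biprod.inl) (H.map biprod.fst) (H.map biprod.inr)
      (H.map biprod.snd) ?_ ?_ ?_
    · rw [← H.map_comp, biprod.inl_fst, H.map_id]
    · rw [← H.map_comp, biprod.inr_snd, H.map_id]
    · rw [← H.map_comp, ← H.map_comp, ← H.map_add, biprod.total, H.map_id]
  obtain ⟨c⟩ := hb M₀ A
  obtain ⟨c'⟩ := hb M₀ A'
  obtain ⟨d⟩ := hV _ _ _ ⟨c.symm ≪≫ (H.mapIso a).symm ≪≫ b ≪≫ H.mapIso a' ≪≫ c'⟩
  obtain ⟨d'⟩ := hdet A A' hA hA' ⟨d⟩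
  exact ⟨a ≪≫ biprod.mapIso (Iso.refl M₀) d' ≪≫ a'.symm⟩

end Pool.Agent.Lib.OrlovCurves
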