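import Mathlib.LinearAlgebra.Matrix.ToLin
import Mathlib.LinearAlgebra.InvariantBasisNumber
import Mathlib.LinearAlgebra.Basis.VectorSpace
import Mathlib.RingTheory.Ideal.Quotient.Defs
import Mathlib.RingTheory.TwoSidedIdeal.Operations

/-!
# Invertible matrices over a ring with a division ring quotient
-/

set_option autoImplicit false

namespace Pool.Agent.Lib.OrlovCurves

/-- If `U V` is the identity modulo a two-sided ideal with a division ring as quotient, and `U` has
rows `κ` and columns `μ`, then `|κ| ≤ |μ|`. -/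
theorem rank_le {R : Type*} [Ring R] (J : Ideal R) [J.IsTwoSided]
    (hJ : ∀ x, x ∉ J → ∃ y, x * y - 1 ∈ J ∧ y * x - 1 ∈ J) (h1 : (1 : R) ∉ J)
    {κ μ : Type} [Fintype κ] [Fintype μ] [DecidableEq κ] (U : κ → μ → R) (V : μ → κ → R)
    (h : ∀ k k', (∑ l, U k l * V l k') - (if k = k' then 1 else 0) ∈ J) :
    Fintype.card κ ≤ Fintype.card μ := by
  classical
  have hn : Nontrivial (R ⧸ J) := by
    refine ⟨⟨(Ideal.Quotient.mk J 1), 0, ?_⟩⟩
    intro h0
    exact h1 (Ideal.Quotient.eq_zero_iff_mem.1 h0)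
  have hu : ∀ a : R ⧸ J, IsUnit a ∨ a = 0 := by
    intro a
    obtain ⟨x, rfl⟩ := Ideal.Quotient.mk_surjective a
    by_cases hx : x ∈ J
    · right
      exact Ideal.Quotient.eq_zero_iff_mem.2 hx
    · left
      obtain ⟨y, hy1, hy2⟩ := hJ x hx
      refine ⟨⟨Ideal.Quotient.mk J x, Ideal.Quotient.mk J y, ?_, ?_⟩, rfl⟩
      · rw [← map_mul, ← map_one (Ideal.Quotient.mk J)]
        exact Ideal.Quotient.eq.2 hy1
      · rw [← map_mul, ← map_one (Ideal.Quotient.mk J)]
        exact Ideal.Quotient.eq.2 hy2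
  letI : DivisionRing (R ⧸ J) := DivisionRing.ofIsUnitOrEqZero hu
  let f : (κ → R ⧸ J) →ₗ[R ⧸ J] (μ → R ⧸ J) :=
    Matrix.toLinearMapRight' (Matrix.of (fun k l => Ideal.Quotient.mk J (U k l)))
  let g : (μ → R ⧸ J) →ₗ[R ⧸ J] (κ → R ⧸ J) :=
    Matrix.toLinearMapRight' (Matrix.of (fun l k => Ideal.Quotient.mk J (V l k)))
  refine card_le_of_injective (R ⧸ J) f ?_
  have hgf : ∀ v, g (f v) = v := by
    intro v
    have hm : Matrix.of (fun k l => Ideal.Quotient.mk J (U k l)) *
        Matrix.of (fun l k => Ideal.Quotient.mk J (V l k)) = (1 : Matrix κ κ (R ⧸ J)) := by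
      ext k k'
      rw [Matrix.mul_apply, Matrix.one_apply]
      have h2 := h k k'
      have h3 := Ideal.Quotient.eq.2 h2
      simp only [Matrix.of_apply]
      rw [← sub_eq_zero]
      have h4 : (∑ l, Ideal.Quotient.mk J (U k l) * Ideal.Quotient.mk J (V l k')) -
          (if k = k' then 1 else 0) =
          Ideal.Quotient.mk J ((∑ l, U k l * V l k') - (if k = k' then 1 else 0)) := by
        rw [map_sub, map_sum]
        simp only [map_mul]
        congr 1
        split_ifs
        · exact (map_one _).symm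
        · exact (map_zero _).symm
      rw [h4]
      exact Ideal.Quotient.eq_zero_iff_mem.2 h2
    change (g ∘ₗ f) v = v
    have h5 : g ∘ₗ f = LinearMap.id := by
      change Matrix.toLinearMapRight' _ ∘ₗ Matrix.toLinearMapRight' _ = _
      rw [← Matrix.toLinearMapRight'_mul, hm]
      exact Matrix.toLinearMapRight'_one
    rw [h5]
    rfl
  exact Function.LeftInverse.injective hgf

end Pool.Agent.Lib.OrlovCurves
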