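import Pool.Agent.Lib.OrlovCurves.Loc
import Pool.Agent.Lib.OrlovCurves.Rank

/-!
# Multiplicities of an object `A` in an object `X`, with respect to a radical of `End A`
-/

set_option autoImplicit false

open CategoryTheory

namespace Pool.Agent.Lib.OrlovCurves

universe v u

variable {D : Type u} [Category.{v} D] [Preadditive D]

/-- A two-sided ideal of `End A` with a division ring as quotient. -/
structure Rad (A : D) where
  J : Set (A ⟶ A)
  zero : (0 : A ⟶ A) ∈ J
  add : ∀ f g : A ⟶ A, f ∈ J → g ∈ J → f + g ∈ J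
  left : ∀ f g : A ⟶ A, g ∈ J → f ≫ g ∈ J
  right : ∀ f g : A ⟶ A, f ∈ J → f ≫ g ∈ J
  one : 𝟙 A ∉ J
  unit : ∀ f : A ⟶ A, f ∉ J → ∃ g : A ⟶ A, f ≫ g - 𝟙 A ∈ J ∧ g ≫ f - 𝟙 A ∈ J

namespace Rad

variable {A : D} (J : Rad A)

/-- the ideal as an ideal of the endomorphism ring -/
def ideal : Ideal (End A) where
  carrier := J.J
  add_mem' {a b} ha hb := J.add a b ha hb
  zero_mem' := J.zero
  smul_mem' c x hx := J.right x c hx

instance : (J.ideal).IsTwoSided := ⟨fun {a} b ha => J.left b a ha⟩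

lemma neg {f : A ⟶ A} (hf : f ∈ J.J) : -f ∈ J.J := by
  have h := J.right f (-𝟙 A) hf
  rwa [Preadditive.comp_neg, Category.comp_id] at h

lemma sub {f g : A ⟶ A} (hf : f ∈ J.J) (hg : g ∈ J.J) : f - g ∈ J.J := by
  rw [sub_eq_add_neg]
  exact J.add _ _ hf (J.neg hg)

lemma sum {ι : Type*} (s : Finset ι) (f : ι → (A ⟶ A)) (h : ∀ k ∈ s, f k ∈ J.J) :
    (∑ k ∈ s, f k) ∈ J.J := by
  classical
  induction s using Finset.induction_on with
  | empty =>
    rw [Finset.sum_empty]
    exact J.zero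
  | insert a s ha ih =>
    rw [Finset.sum_insert ha]
    exact J.add _ _ (h a (Finset.mem_insert_self a s))
      (ih (fun k hk => h k (Finset.mem_insert_of_mem hk)))

end Rad

/-- `κ` copies of `A` split off from `X`. -/
structure Split (A X : D) (κ : Type) where
  i : κ → (A ⟶ X)
  r : κ → (X ⟶ A)
  diag : ∀ k, i k ≫ r k = 𝟙 A
  off : ∀ k l, k ≠ l → i k ≫ r l = 0

/-- `κ` copies of `A` split off from `X` and the rest contains no further copy of `A`. -/
structure Frame {A : D} (J : Rad A) (X : D) (κ : Type) [Fintype κ] extends Split A X κ where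
  rest : ∀ (φ : A ⟶ X) (ψ : X ⟶ A), φ ≫ (𝟙 X - ∑ k, r k ≫ i k) ≫ ψ ∈ J.J

/-- The number of copies of `A` that split off is bounded by the size of a frame. -/
theorem Split.card_le {A : D} (J : Rad A) {X : D} {κ μ : Type} [Fintype κ] [Fintype μ]
    (F : Split A X κ) (G : Frame J X μ) : Fintype.card κ ≤ Fintype.card μ := by
  classical
  refine rank_le (R := End A) J.ideal (fun x hx => ?_) (fun h => J.one h)
    (fun k l => (G.i l ≫ F.r k : A ⟶ A)) (fun l k => (F.i k ≫ G.r l : A ⟶ A)) ?_
  · obtain ⟨g, hg1, hg2⟩ := J.unit x hx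
    exact ⟨g, hg2, hg1⟩
  · intro k k'
    have h1 := G.rest (F.i k') (F.r k)
    have h2 := J.neg h1
    have h3 : -(F.i k' ≫ (𝟙 X - ∑ l, G.r l ≫ G.i l) ≫ F.r k) =
        (∑ l, (F.i k' ≫ G.r l) ≫ (G.i l ≫ F.r k)) - (if k = k' then 𝟙 A else 0) := by
      rw [Preadditive.sub_comp, Preadditive.comp_sub, Category.id_comp, neg_sub,
        Preadditive.sum_comp, Preadditive.comp_sum]
      congr 1
      · refine Finset.sum_congr rfl (fun l _ => ?_)
        simp only [Category.assoc]
      · split_ifs with h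
        · subst h
          exact F.diag k
        · exact F.off k' k (Ne.symm h)
    rw [h3] at h2
    exact h2

/-- Frames in isomorphic objects have the same size. -/
theorem Frame.card_eq {A : D} (J : Rad A) {X : D} {κ μ : Type} [Fintype κ] [Fintype μ]
    (F : Frame J X κ) (G : Frame J X μ) : Fintype.card κ = Fintype.card μ :=
  le_antisymm (F.toSplit.card_le J G) (G.toSplit.card_le J F)

/-- transport of a splitting -/
def Split.trans {A X Y : D} {κ : Type} (F : Split A X κ) (i : X ⟶ Y) (r : Y ⟶ X)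
    (h : i ≫ r = 𝟙 X) : Split A Y κ where
  i k := F.i k ≫ i
  r k := r ≫ F.r k
  diag k := by
    rw [Category.assoc, ← Category.assoc i, h, Category.id_comp, F.diag]
  off k l hkl := by
    rw [Category.assoc, ← Category.assoc i, h, Category.id_comp, F.off k l hkl]

/-- transport of a frame along an isomorphism -/
def Frame.trans {A X Y : D} {J : Rad A} {κ : Type} [Fintype κ] (F : Frame J X κ) (e : X ≅ Y) :
    Frame J Y κ where
  toSplit := F.toSplit.trans e.hom e.inv e.hom_inv_id
  rest φ ψ := by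
    have h := F.rest (φ ≫ e.inv) (e.hom ≫ ψ)
    have h1 : φ ≫ (𝟙 Y - ∑ k, (F.toSplit.trans e.hom e.inv e.hom_inv_id).r k ≫
        (F.toSplit.trans e.hom e.inv e.hom_inv_id).i k) ≫ ψ =
        (φ ≫ e.inv) ≫ (𝟙 X - ∑ k, F.r k ≫ F.i k) ≫ e.hom ≫ ψ := by
      simp only [Split.trans, Preadditive.sub_comp, Preadditive.comp_sub, Category.id_comp,
        Category.assoc, Iso.inv_hom_id_assoc, Preadditive.sum_comp, Preadditive.comp_sum]
    rw [h1]
    exact h

end Pool.Agent.Lib.OrlovCurves
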