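import Mathlib.CategoryTheory.Preadditive.Basic
import Mathlib.CategoryTheory.Endomorphism
import Mathlib.RingTheory.LocalRing.Defs
import Mathlib.Algebra.Category.ModuleCat.Basic

/-!
# Objects with local endomorphism rings
-/

set_option autoImplicit false

open CategoryTheory

namespace Pool.Agent.Lib.OrlovCurves

universe v u

variable {D : Type u} [Category.{v} D] [Preadditive D]

/-- An object is local if it is not zero and `f` or `1 - f` is invertible for all endomorphisms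
`f`. -/
def Loc (A : D) : Prop := ¬ IsIso (0 : A ⟶ A) ∧ ∀ f : A ⟶ A, IsIso f ∨ IsIso (𝟙 A - f)

lemma loc_of_isLocalRing {A : D} [IsLocalRing (End A)] : Loc A := by
  constructor
  · intro h
    have h1 : (𝟙 A : A ⟶ A) = 0 := by
      have := IsIso.hom_inv_id (0 : A ⟶ A)
      rw [Limits.zero_comp] at this
      exact this.symm
    exact one_ne_zero (α := End A) h1
  · intro f
    rcases IsLocalRing.isUnit_or_isUnit_of_add_one (R := End A) (a := f) (b := (𝟙 A - f : A ⟶ A))
      (by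
        change f + (𝟙 A - f) = 𝟙 A
        abel) with h | h
    · left
      exact (isUnit_iff_isIso f).1 h
    · right
      exact (isUnit_iff_isIso (𝟙 A - f)).1 h

namespace Loc

variable {A B X : D}

lemma one_ne_zero (hA : Loc A) : (𝟙 A : A ⟶ A) ≠ 0 := by
  intro h
  apply hA.1
  rw [← h]
  infer_instance

/-- idempotents of a local object -/
lemma idem (hA : Loc A) {e : A ⟶ A} (he : e ≫ e = e) (h0 : e ≠ 0) : e = 𝟙 A := by
  rcases hA.2 e with h | h
  · have h1 : inv e ≫ e ≫ e = inv e ≫ e := by rw [he]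
    rw [IsIso.inv_hom_id_assoc, IsIso.inv_hom_id] at h1
    exact h1
  · exfalso
    apply h0
    have h1 : e ≫ (𝟙 A - e) = 0 := by rw [Preadditive.comp_sub, Category.comp_id, he, sub_self]
    have h2 : (e ≫ (𝟙 A - e)) ≫ inv (𝟙 A - e) = 0 := by rw [h1, Limits.zero_comp]
    rw [Category.assoc, IsIso.hom_inv_id, Category.comp_id] at h2
    exact h2

/-- if `A ⟶ B ⟶ A` is invertible and `B` is local then `A ⟶ B` is invertible -/
lemma isIso_of_comp (hA : Loc A) (hB : Loc B) (f : A ⟶ B) (g : B ⟶ A) (h : IsIso (f ≫ g)) :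
    IsIso f := by
  have h1 : f ≫ g ≫ inv (f ≫ g) = 𝟙 A := by
    rw [← Category.assoc]
    exact IsIso.hom_inv_id (f ≫ g)
  have h2 : (g ≫ inv (f ≫ g) ≫ f) = 𝟙 B := by
    refine hB.idem ?_ ?_
    · calc (g ≫ inv (f ≫ g) ≫ f) ≫ g ≫ inv (f ≫ g) ≫ f
          = g ≫ inv (f ≫ g) ≫ (f ≫ g ≫ inv (f ≫ g)) ≫ f := by simp only [Category.assoc]
        _ = g ≫ inv (f ≫ g) ≫ f := by rw [h1, Category.id_comp]
    · intro h0
      apply hA.one_ne_zero
      calc 𝟙 A = (f ≫ g ≫ inv (f ≫ g)) ≫ (f ≫ g ≫ inv (f ≫ g)) := by rw [h1, Category.comp_id]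
        _ = f ≫ (g ≫ inv (f ≫ g) ≫ f) ≫ g ≫ inv (f ≫ g) := by simp only [Category.assoc]
        _ = 0 := by rw [h0, Limits.zero_comp, Limits.comp_zero]
  exact ⟨g ≫ inv (f ≫ g), h1, by rw [Category.assoc]; exact h2⟩

/-- if `A ⟶ B ⟶ A` is invertible and `B` is local then `A` and `B` are isomorphic -/
lemma iso_of_comp (hA : Loc A) (hB : Loc B) (f : A ⟶ B) (g : B ⟶ A) (h : IsIso (f ≫ g)) :
    Nonempty (A ≅ B) := by
  have := isIso_of_comp hA hB f g h
  exact ⟨asIso f⟩

lemma comp_left (hA : Loc A) (f g : A ⟶ A) (h : IsIso (f ≫ g)) : IsIso f :=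
  isIso_of_comp hA hA f g h

lemma comp_right (hA : Loc A) (f g : A ⟶ A) (h : IsIso (f ≫ g)) : IsIso g := by
  have h1 := hA.comp_left f g h
  have h2 : g = inv f ≫ (f ≫ g) := by rw [IsIso.inv_hom_id_assoc]
  rw [h2]
  infer_instance

/-- the noninvertible endomorphisms are closed under addition -/
lemma add (hA : Loc A) {f g : A ⟶ A} (hf : ¬ IsIso f) (hg : ¬ IsIso g) : ¬ IsIso (f + g) := by
  intro h
  have h1 : f ≫ inv (f + g) + g ≫ inv (f + g) = 𝟙 A := by
    rw [← Preadditive.add_comp]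
    exact IsIso.hom_inv_id (f + g)
  rcases hA.2 (f ≫ inv (f + g)) with h2 | h2
  · exact hf (hA.comp_left _ _ h2)
  · rw [← h1, add_sub_cancel_left] at h2
    exact hg (hA.comp_left _ _ h2)

lemma neg {f : A ⟶ A} (hf : ¬ IsIso f) : ¬ IsIso (-f) := by
  intro h
  apply hf
  refine ⟨-inv (-f), ?_, ?_⟩
  · rw [Preadditive.comp_neg, ← Preadditive.neg_comp, IsIso.hom_inv_id]
  · rw [Preadditive.neg_comp, ← Preadditive.comp_neg, IsIso.inv_hom_id]

lemma sub (hA : Loc A) {f g : A ⟶ A} (hf : ¬ IsIso f) (hg : ¬ IsIso g) : ¬ IsIso (f - g) := by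
  rw [sub_eq_add_neg]
  exact hA.add hf (neg hg)

lemma sum (hA : Loc A) {ι : Type*} (s : Finset ι) (f : ι → (A ⟶ A)) (h : ∀ k ∈ s, ¬ IsIso (f k)) :
    ¬ IsIso (∑ k ∈ s, f k) := by
  classical
  induction s using Finset.induction_on with
  | empty =>
    rw [Finset.sum_empty]
    exact hA.1
  | insert a s ha ih =>
    rw [Finset.sum_insert ha]
    exact hA.add (h a (Finset.mem_insert_self a s))
      (ih (fun k hk => h k (Finset.mem_insert_of_mem hk)))

/-- `1 - f` is invertible if `f` is not -/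
lemma one_sub (hA : Loc A) {f : A ⟶ A} (hf : ¬ IsIso f) : IsIso (𝟙 A - f) :=
  (hA.2 f).resolve_left hf

/-- an object isomorphic to a local one is local -/
lemma of_iso (hA : Loc A) (e : A ≅ B) : Loc B := by
  have key : ∀ f : B ⟶ B, IsIso (e.hom ≫ f ≫ e.inv) → IsIso f := by
    intro f h
    have h1 : f = e.inv ≫ (e.hom ≫ f ≫ e.inv) ≫ e.hom := by simp
    rw [h1]
    infer_instance
  constructor
  · intro h
    apply hA.1
    have h1 : (0 : A ⟶ A) = e.hom ≫ (0 : B ⟶ B) ≫ e.inv := by simp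
    rw [h1]
    infer_instance
  · intro f
    rcases hA.2 (e.hom ≫ f ≫ e.inv) with h | h
    · exact Or.inl (key f h)
    · right
      apply key
      have h1 : e.hom ≫ (𝟙 B - f) ≫ e.inv = 𝟙 A - e.hom ≫ f ≫ e.inv := by
        simp [Preadditive.sub_comp, Preadditive.comp_sub]
      rw [h1]
      exact h

end Loc

end Pool.Agent.Lib.OrlovCurves
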