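import Pool.Agent.Lib.OrlovCurves.Final
import Pool.Agent.Lib.OrlovCurves.Sl2

/-!
# Assembly
-/

set_option autoImplicit false

open CategoryTheory CategoryTheory.Limits

namespace Pool.Agent.Lib.OrlovCurves

open Pool.Agent.Lib.MP_5c0b30_ag

universe v u v' u'

variable {C : Type u} [Category.{v} C] [Preadditive C] [Linear ℚ C] [HasFiniteBiproducts C]
  [IsIdempotentComplete C] [HasShift C ℤ] [∀ n : ℤ, (shiftFunctor C n).Additive]
  {𝒜 : C → Prop}

omit [Linear ℚ C] [∀ n : ℤ, (shiftFunctor C n).Additive] in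
/-- parallel decompositions from an isomorphism modulo `I` -/
theorem exists_pair_of_isom (h𝒜 : IsPieces 𝒜) {M M' : C} (I : TwistIdeal C) (hM : I.Small 𝒜 M)
    (hM' : I.Small 𝒜 M') (h : I.Isom M M') :
    ∃ (μ μ' : Type) (_ : Fintype μ) (_ : Fintype μ') (B : μ → C) (B' : μ' → C) (M₁ : C),
      (∀ k, 𝒜 (B k)) ∧ (∀ k, 𝒜 (B' k)) ∧ Nonempty (Dec M M₁ B) ∧ Nonempty (Dec M' M₁ B') := by
  obtain ⟨f, g, h1, h2⟩ := isom_through 𝒜 I hM hM' h
  exact exists_pair (fun A hA => h𝒜.loc hA) f g h1 h2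

omit [HasFiniteBiproducts C] [IsIdempotentComplete C] in
lemma isom_of_or (I : TwistIdeal C) {M M' : C} (e : OrbitEquiv M M')
    (h : OneSided I e ∨ Lefschetz I e) : I.Isom M M' := by
  rcases h with h | h
  · exact isom_of_onesided I e h
  · exact isom_of_neg I e (neg_of_lefschetz I e h)

omit [Linear ℚ C] in
/-- `M ≅ M'` if they are isomorphic modulo `I` and the multiplicities are known. -/
theorem iso_of_isom (h𝒜 : IsPieces 𝒜) {M M' : C} (I : TwistIdeal C) (hM : I.Small 𝒜 M)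
    (hM' : I.Small 𝒜 M')
    (hm : SameRealization.{v, u, v', u'} 𝒜 M M' ∨ (Nonempty (OrbitEquiv M M') ∧
      KnownUpToDuality 𝒜 M M')) (h : I.Isom M M') : Nonempty (M ≅ M') := by
  have hbb : HasBinaryBiproducts C := hasBinaryBiproducts_of_finite_biproducts C
  obtain ⟨μ, μ', _, _, B, B', M₁, hB, hB', ⟨d⟩, ⟨d'⟩⟩ := exists_pair_of_isom h𝒜 I hM hM' h
  rcases hm with ⟨V, _, _, _, H, hadd, hV, hH, hh⟩ | ⟨⟨e⟩, hk⟩
  · exact iso_of_realization hB hB' d d' H hV hH hh
  · refine d.iso_of_iso d' (iso_of_card B B' (card_eq_all hB hB' (fun A hA => ?_)))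
    exact card_eq_of_known h𝒜 e hB hB' d d' hk hA

omit [Linear ℚ C] [HasFiniteBiproducts C] [IsIdempotentComplete C]
  [∀ n : ℤ, (shiftFunctor C n).Additive] in
/-- isomorphic objects are isomorphic modulo `I` -/
lemma isom_of_iso (I : TwistIdeal C) {M M' : C} (h : Nonempty (M ≅ M')) : I.Isom M M' := by
  obtain ⟨i⟩ := h
  refine ⟨i.hom, i.inv, ?_, ?_⟩
  · rw [i.hom_inv_id, sub_self]
    exact AddSubgroup.zero_mem _
  · rw [i.inv_hom_id, sub_self]
    exact AddSubgroup.zero_mem _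

end Pool.Agent.Lib.OrlovCurves
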