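import Pool.Agent.Lib.OrlovCurves.Exist
import Pool.Agent.Lib.MP_5c0b30_ag.DefsConv

/-!
# Frames in the orbit category
-/

set_option autoImplicit false

open CategoryTheory CategoryTheory.Limits

namespace Pool.Agent.Lib.OrlovCurves

open Pool.Agent.Lib.MP_5c0b30_ag

universe v u

variable {C : Type u} [Category.{v} C] [Preadditive C] [HasShift C ℤ]
  [∀ n : ℤ, (shiftFunctor C n).Additive]

lemma orbitComp_deg0_apply {X Y Z : C} (φ : OrbitHom X Y) (g : Y ⟶ Z) (n : ℤ) :
    (orbitComp φ (deg0 g)) n = φ n ≫ g⟦n⟧' := by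
  induction φ using DirectSum.induction_on with
  | zero => simp
  | add φ ψ h₁ h₂ => rw [add_orbitComp, DirectSum.add_apply, h₁, h₂, DirectSum.add_apply,
      Preadditive.add_comp]
  | of m f =>
    change (orbitComp (hof m f) (deg0 g)) n = (hof m f) n ≫ g⟦n⟧'
    rw [hof_deg0]
    by_cases h : m = n
    · subst h
      rw [DirectSum.of_eq_same, DirectSum.of_eq_same]
    · rw [DirectSum.of_eq_of_ne _ _ _ (Ne.symm h), DirectSum.of_eq_of_ne _ _ _ (Ne.symm h),
        zero_comp]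

lemma deg0_orbitComp_apply {X Y Z : C} (f : X ⟶ Y) (ψ : OrbitHom Y Z) (n : ℤ) :
    (orbitComp (deg0 f) ψ) n = f ≫ ψ n := by
  induction ψ using DirectSum.induction_on with
  | zero => simp
  | add φ ψ h₁ h₂ => rw [orbitComp_add, DirectSum.add_apply, h₁, h₂, DirectSum.add_apply,
      Preadditive.comp_add]
  | of m g =>
    change (orbitComp (deg0 f) (hof m g)) n = f ≫ (hof m g) n
    rw [deg0_hof]
    by_cases h : m = n
    · subst h
      rw [DirectSum.of_eq_same, DirectSum.of_eq_same]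
    · rw [DirectSum.of_eq_of_ne _ _ _ (Ne.symm h), DirectSum.of_eq_of_ne _ _ _ (Ne.symm h),
        comp_zero]

/-- the isomorphism `A⟦0⟧ ≅ A` -/
noncomputable abbrev z0 (A : C) : A⟦(0 : ℤ)⟧ ≅ A := (shiftFunctorZero C ℤ).app A

omit [Preadditive C] [∀ n : ℤ, (shiftFunctor C n).Additive] in
lemma mk₀_eq {X Y : C} (f : X ⟶ Y) : ShiftedHom.mk₀ (0 : ℤ) rfl f = f ≫ (z0 Y).inv := by
  simp [ShiftedHom.mk₀, shiftFunctorZero']

omit [∀ n : ℤ, (shiftFunctor C n).Additive] in
/-- a sum of noninvertible morphisms is noninvertible -/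
lemma sum_not_iso {A : C} (hA : Loc A) {ι : Type*} (s : Finset ι) (t : ι → (A ⟶ A⟦(0 : ℤ)⟧))
    (h : ∀ k ∈ s, ¬ IsIso (t k)) : ¬ IsIso (∑ k ∈ s, t k) := by
  intro h1
  have h2 : ¬ IsIso (∑ k ∈ s, t k ≫ (z0 A).hom) := by
    refine hA.sum s _ (fun k hk h3 => h k hk ?_)
    have h4 : t k = (t k ≫ (z0 A).hom) ≫ (z0 A).inv := by simp
    rw [h4]
    infer_instance
  apply h2
  rw [← Preadditive.sum_comp]
  infer_instance

/-- the degree `0` part of a composition is invertible only if one of the terms is -/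
lemma orbitComp_not_iso {A X : C} (hA : Loc A) (φ : OrbitHom A X) (ψ : OrbitHom X A)
    (h : ∀ n : ℤ, ¬ IsIso (φ n ≫ (ψ (0 - n))⟦n⟧')) : ¬ IsIso ((orbitComp φ ψ) 0) := by
  classical
  rw [orbitComp_apply φ ψ 0 (DFinsupp.support φ) (fun n hn => DFinsupp.notMem_support_iff.1 hn)]
  refine sum_not_iso hA _ _ (fun n _ h1 => h n ?_)
  rw [ShiftedHom.comp] at h1
  have h2 : φ n ≫ (ψ (0 - n))⟦n⟧' = (φ n ≫ (ψ (0 - n))⟦n⟧' ≫
      (shiftFunctorAdd' C (0 - n) n 0 (sub_add_cancel 0 n)).inv.app A) ≫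
      (shiftFunctorAdd' C (0 - n) n 0 (sub_add_cancel 0 n)).hom.app A := by
    simp
  rw [h2]
  infer_instance

/-- a morphism `A ⟶ X⟦m⟧` as a morphism `A⟦-m⟧ ⟶ X` -/
lemma exists_back {A X : C} (m : ℤ) (f : A ⟶ X⟦m⟧) : ∃ f' : A⟦0 - m⟧ ⟶ X,
    ∀ g : X ⟶ A⟦0 - m⟧, IsIso (f ≫ g⟦m⟧') → IsIso (f' ≫ g) := by
  refine ⟨f⟦0 - m⟧' ≫ (shiftFunctorCompIsoId C m (0 - m) (by omega)).hom.app X, fun g h => ?_⟩
  have h1 : ((f⟦0 - m⟧' ≫ (shiftFunctorCompIsoId C m (0 - m) (by omega)).hom.app X) ≫ g)⟦m⟧' =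
      (shiftFunctorCompIsoId C (0 - m) m (by omega)).hom.app A ≫ f ≫ g⟦m⟧' := by
    rw [Functor.map_comp, Functor.map_comp, shift_shiftFunctorCompIsoId_hom_app]
    have h2 := (shiftFunctorCompIsoId C (0 - m) m (by omega)).hom.naturality f
    simp only [Functor.comp_map, Functor.id_map] at h2
    rw [h2, Category.assoc]
  have h3 : IsIso (((f⟦0 - m⟧' ≫ (shiftFunctorCompIsoId C m (0 - m) (by omega)).hom.app X) ≫
      g)⟦m⟧') := by
    rw [h1]
    infer_instance
  exact isIso_of_reflects_iso _ (shiftFunctor C m)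

variable {𝒜 : C → Prop}

omit [∀ n : ℤ, (shiftFunctor C n).Additive] in
lemma IsPieces.loc (h𝒜 : IsPieces 𝒜) {A : C} (hA : 𝒜 A) : Loc A := by
  have := h𝒜.isLocal A hA
  exact loc_of_isLocalRing

omit [∀ n : ℤ, (shiftFunctor C n).Additive] in
/-- the isomorphism `A⟦m⟧⟦n⟧ ≅ A⟦0⟧ ≅ A` for `m + n = 0` -/
lemma isoBack (A : C) (m n : ℤ) (h : m + n = 0) : Nonempty (A⟦m⟧⟦n⟧ ≅ A) :=
  ⟨(shiftFunctorCompIsoId C m n h).app A⟩

/-- if `A ⟶ X⟦n⟧ ⟶ A⟦m⟧⟦n⟧` is invertible, `m = -n`, and `X` is local, then `X ≅ A⟦m⟧` -/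
lemma iso_of_term {A X : C} (hA : Loc A) {n : ℤ} (hX : Loc (X⟦n⟧)) (f : A ⟶ X⟦n⟧)
    (g : X ⟶ A⟦0 - n⟧) (h : IsIso (f ≫ g⟦n⟧')) : Nonempty (A ≅ X⟦n⟧) := by
  obtain ⟨e⟩ := isoBack A (0 - n) n (by omega)
  refine hA.iso_of_comp hX f (g⟦n⟧' ≫ e.hom) ?_
  rw [← Category.assoc]
  infer_instance

/-- the ideal of the endomorphisms of `A` in the orbit category with noninvertible degree `0`
component -/
noncomputable def orbRad (h𝒜 : IsPieces 𝒜) {A : C} (hA : 𝒜 A) : Rad (D := Orbit C) (toOrbit A) where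
  J := {f | ¬ IsIso ((show OrbitHom A A from f) 0 : A ⟶ A⟦(0 : ℤ)⟧)}
  zero := by
    change ¬ IsIso (0 : A ⟶ A⟦(0 : ℤ)⟧)
    have h1 := sum_not_iso (h𝒜.loc hA) (∅ : Finset ℕ) (fun _ => 0) (by simp)
    simpa using h1
  add f g hf hg := by
    change ¬ IsIso (((show OrbitHom A A from f) + (show OrbitHom A A from g) : OrbitHom A A) 0)
    rw [DirectSum.add_apply]
    have h1 := sum_not_iso (h𝒜.loc hA) (Finset.univ : Finset Bool)
      (fun b => if b then (show OrbitHom A A from f) 0 else (show OrbitHom A A from g) 0) (by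
        rintro (_ | _) _
        · exact hg
        · exact hf)
    rw [Fintype.sum_bool] at h1
    exact h1
  left f g hg := by
    change ¬ IsIso ((orbitComp (show OrbitHom A A from f) (show OrbitHom A A from g)) 0)
    refine orbitComp_not_iso (h𝒜.loc hA) _ _ (fun n h => ?_)
    by_cases hn : n = 0
    · subst hn
      apply hg
      change IsIso ((show OrbitHom A A from g) 0)
      have h1 : IsIso (((show OrbitHom A A from g) (0 - 0))⟦(0 : ℤ)⟧') := by
        obtain ⟨e⟩ := isoBack A (0 - 0) 0 (by omega)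
        have h2 : IsIso (((show OrbitHom A A from f) 0 ≫ (z0 A).hom) ≫ (z0 A).inv ≫
            ((show OrbitHom A A from g) (0 - 0))⟦(0 : ℤ)⟧' ≫ e.hom) := by
          simp only [Category.assoc, Iso.hom_inv_id_assoc]
          rw [← Category.assoc]
          infer_instance
        have h3 := (h𝒜.loc hA).comp_right _ _ h2
        have h4 : ((show OrbitHom A A from g) (0 - 0))⟦(0 : ℤ)⟧' = (z0 A).hom ≫ ((z0 A).inv ≫
            ((show OrbitHom A A from g) (0 - 0))⟦(0 : ℤ)⟧' ≫ e.hom) ≫ e.inv := by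
          simp only [Category.assoc, Iso.hom_inv_id_assoc, Iso.hom_inv_id, Category.comp_id]
        rw [h4]
        infer_instance
      have h5 : IsIso ((show OrbitHom A A from g) (0 - 0)) :=
        isIso_of_reflects_iso _ (shiftFunctor C (0 : ℤ))
      have h6 : ∀ m : ℤ, m = 0 → IsIso ((show OrbitHom A A from g) m) →
          IsIso ((show OrbitHom A A from g) 0) := by
        intro m hm h
        subst hm
        exact h
      exact h6 _ (by omega) h5
    · obtain ⟨e⟩ := iso_of_term (h𝒜.loc hA) (h𝒜.loc (h𝒜.shift A hA n)) _ _ h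
      exact (h𝒜.free A hA n hn).false e
  right f g hf := by
    change ¬ IsIso ((orbitComp (show OrbitHom A A from f) (show OrbitHom A A from g)) 0)
    refine orbitComp_not_iso (h𝒜.loc hA) _ _ (fun n h => ?_)
    by_cases hn : n = 0
    · subst hn
      apply hf
      change IsIso ((show OrbitHom A A from f) 0)
      obtain ⟨e⟩ := isoBack A (0 - 0) 0 (by omega)
      have h2 : IsIso (((show OrbitHom A A from f) 0 ≫ (z0 A).hom) ≫ (z0 A).inv ≫
          ((show OrbitHom A A from g) (0 - 0))⟦(0 : ℤ)⟧' ≫ e.hom) := by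
        simp only [Category.assoc, Iso.hom_inv_id_assoc]
        rw [← Category.assoc]
        infer_instance
      have h3 := (h𝒜.loc hA).comp_left _ _ h2
      have h4 : (show OrbitHom A A from f) 0 = ((show OrbitHom A A from f) 0 ≫ (z0 A).hom) ≫
          (z0 A).inv := by simp
      rw [h4]
      infer_instance
    · obtain ⟨e⟩ := iso_of_term (h𝒜.loc hA) (h𝒜.loc (h𝒜.shift A hA n)) _ _ h
      exact (h𝒜.free A hA n hn).false e
  one := by
    change ¬ ¬ IsIso ((orbitId A) 0)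
    rw [not_not, orbitId, DirectSum.of_eq_same, mk₀_eq]
    infer_instance
  unit f hf := by
    have h1 : IsIso ((show OrbitHom A A from f) 0) := not_not.1 hf
    have hz : ¬ IsIso (0 : A ⟶ A⟦(0 : ℤ)⟧) := by
      have h2 := sum_not_iso (h𝒜.loc hA) (∅ : Finset ℕ) (fun _ => 0) (by simp)
      simpa using h2
    have h3 : IsIso ((show OrbitHom A A from f) 0 ≫ (z0 A).hom) := inferInstance
    obtain ⟨w, hw1, hw2⟩ := h3.out
    have hw : w⟦(0 : ℤ)⟧' = (z0 A).hom ≫ w ≫ (z0 A).inv := by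
      have h4 := (shiftFunctorZero C ℤ).hom.naturality w
      simp only [Functor.id_map] at h4
      change w⟦(0 : ℤ)⟧' = (shiftFunctorZero C ℤ).hom.app A ≫ w ≫ (shiftFunctorZero C ℤ).inv.app A
      rw [← Category.assoc, ← h4, Category.assoc]
      simp
    refine ⟨deg0 w, ?_, ?_⟩
    · change ¬ IsIso ((orbitComp (show OrbitHom A A from f) (deg0 w) - orbitId A) 0)
      rw [DirectSum.sub_apply, orbitComp_deg0_apply, orbitId, DirectSum.of_eq_same, mk₀_eq, hw,
        ← Category.assoc, ← Category.assoc, hw1, sub_self]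
      exact hz
    · change ¬ IsIso ((orbitComp (deg0 w) (show OrbitHom A A from f) - orbitId A) 0)
      have h4 : w ≫ (show OrbitHom A A from f) 0 =
          (w ≫ (show OrbitHom A A from f) 0 ≫ (z0 A).hom) ≫ (z0 A).inv := by simp
      rw [DirectSum.sub_apply, deg0_orbitComp_apply, orbitId, DirectSum.of_eq_same, mk₀_eq, h4,
        hw2, sub_self]
      exact hz

/-- The frame of the orbit category attached to a maximal family of twists of `A` that are direct
summands. -/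
theorem exists_orbFrame (h𝒜 : IsPieces 𝒜) {A : C} (hA : 𝒜 A) {X : C} {N : ℕ}
    (hN : ∀ (n : ℕ) (s : Fin n → ℤ), IsSummand (fun k => A⟦s k⟧) X → n ≤ N) :
    ∃ n, Nonempty (Frame (D := Orbit C) (orbRad h𝒜 hA) (toOrbit X) (Fin n)) := by
  obtain ⟨n, ⟨s, i, r, hir, hoff⟩, hmax⟩ := exists_max
    (P := fun n => ∃ s : Fin n → ℤ, IsSummand (fun k => A⟦s k⟧) X)
    ⟨fun k => k.elim0, fun k => k.elim0, fun k => k.elim0, fun k => k.elim0, fun k => k.elim0⟩
    (N := N) (fun n ⟨s, hs⟩ => hN n s hs)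
  have htot : ∀ k, orbitComp (orbitComp (deg0 (r k)) (OrbitIso.shiftIso A (s k)).hom)
      (orbitComp (OrbitIso.shiftIso A (s k)).inv (deg0 (i k))) = deg0 (r k ≫ i k) := by
    intro k
    rw [orbitComp_assoc, ← orbitComp_assoc (OrbitIso.shiftIso A (s k)).hom,
      OrbitIso.hom_inv_id, orbitId_comp, deg0_comp]
  have hio : ∀ k l, orbitComp (orbitComp (OrbitIso.shiftIso A (s k)).inv (deg0 (i k)))
      (orbitComp (deg0 (r l)) (OrbitIso.shiftIso A (s l)).hom) =
      orbitComp (OrbitIso.shiftIso A (s k)).inv (orbitComp (deg0 (i k ≫ r l))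
        (OrbitIso.shiftIso A (s l)).hom) := by
    intro k l
    rw [deg0_comp]
    simp only [orbitComp_assoc]
  refine ⟨n, ⟨{
    i := fun k => orbitComp (OrbitIso.shiftIso A (s k)).inv (deg0 (i k))
    r := fun k => orbitComp (deg0 (r k)) (OrbitIso.shiftIso A (s k)).hom
    diag := fun k => ?_
    off := fun k l hkl => ?_
    rest := fun φ ψ => ?_ }⟩⟩
  · change orbitComp (orbitComp (OrbitIso.shiftIso A (s k)).inv (deg0 (i k)))
      (orbitComp (deg0 (r k)) (OrbitIso.shiftIso A (s k)).hom) = orbitId A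
    rw [hio, hir, deg0_id, orbitId_comp, OrbitIso.inv_hom_id]
  · change orbitComp (orbitComp (OrbitIso.shiftIso A (s k)).inv (deg0 (i k)))
      (orbitComp (deg0 (r l)) (OrbitIso.shiftIso A (s l)).hom) = 0
    rw [hio, hoff k l hkl, deg0_zero, zero_orbitComp, orbitComp_zero]
  · have h1 : (𝟙 (toOrbit X) - ∑ k, (show toOrbit X ⟶ toOrbit A from
        orbitComp (deg0 (r k)) (OrbitIso.shiftIso A (s k)).hom) ≫
        (show toOrbit A ⟶ toOrbit X from
          orbitComp (OrbitIso.shiftIso A (s k)).inv (deg0 (i k)))) =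
        (deg0 (𝟙 X - ∑ k, r k ≫ i k) : OrbitHom X X) := by
      have h2 : deg0 (𝟙 X - ∑ k, r k ≫ i k) + deg0 (∑ k, r k ≫ i k) = orbitId X := by
        rw [← deg0_add, sub_add_cancel, deg0_id]
      have h3 : (∑ k, (show toOrbit X ⟶ toOrbit A from
        orbitComp (deg0 (r k)) (OrbitIso.shiftIso A (s k)).hom) ≫
        (show toOrbit A ⟶ toOrbit X from
          orbitComp (OrbitIso.shiftIso A (s k)).inv (deg0 (i k)))) =
          (deg0 (∑ k, r k ≫ i k) : OrbitHom X X) := by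
        rw [deg0_sum]
        exact Finset.sum_congr rfl (fun k _ => htot k)
      rw [sub_eq_iff_eq_add]
      refine h2.symm.trans ?_
      rw [h3]
      rfl
    change ¬ IsIso ((show OrbitHom A A from φ ≫ (𝟙 (toOrbit X) - ∑ k, (show toOrbit X ⟶ toOrbit A from
        orbitComp (deg0 (r k)) (OrbitIso.shiftIso A (s k)).hom) ≫
        (show toOrbit A ⟶ toOrbit X from
          orbitComp (OrbitIso.shiftIso A (s k)).inv (deg0 (i k)))) ≫ ψ) 0)
    rw [h1]
    change ¬ IsIso ((orbitComp (show OrbitHom A X from φ) (orbitComp (deg0 (𝟙 X - ∑ k, r k ≫ i k))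
      (show OrbitHom X A from ψ))) 0)
    refine orbitComp_not_iso (h𝒜.loc hA) _ _ (fun m h => ?_)
    rw [deg0_orbitComp_apply] at h
    obtain ⟨φ', hφ'⟩ := exists_back (A := A) (X := X) m ((show OrbitHom A X from φ) m)
    have h2 := hφ' ((𝟙 X - ∑ k, r k ≫ i k) ≫ (show OrbitHom X A from ψ) (0 - m)) h
    have h3 := IsSummand.extend i r hir hoff φ' ((show OrbitHom X A from ψ) (0 - m)) h2
    have h4 := (h3.comp (finSuccEquiv n) (finSuccEquiv n).injective).congr
      (B' := fun k => A⟦((finSuccEquiv n) k).elim (0 - m) s⟧)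
      (fun k => eqToIso (by
        rcases (finSuccEquiv n) k with _ | k
        · rfl
        · rfl))
    have h5 := hmax (n + 1) ⟨_, h4⟩
    omega

end Pool.Agent.Lib.OrlovCurves
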